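import Mathlib

set_option autoImplicit false

namespace Pool.Agent.Helper214.QTorus

open Polynomial

theorem curve_const (c : ℂ) (hc : c ≠ 0) (x y : RatFunc ℂ) (h : y ^ 2 = x ^ 3 + RatFunc.C c) :
    ∃ r : ℂ, x = RatFunc.C r := by
  set a := x.num with ha
  set b := x.denom with hb
  set p := y.num with hp
  set s := y.denom with hs
  have hb0 : b ≠ 0 := RatFunc.denom_ne_zero x
  have hs0 : s ≠ 0 := RatFunc.denom_ne_zero y
  have hbA : algebraMap ℂ[X] (RatFunc ℂ) b ≠ 0 := RatFunc.algebraMap_ne_zero hb0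
  have hsA : algebraMap ℂ[X] (RatFunc ℂ) s ≠ 0 := RatFunc.algebraMap_ne_zero hs0
  have hx : x = algebraMap ℂ[X] (RatFunc ℂ) a / algebraMap ℂ[X] (RatFunc ℂ) b :=
    (RatFunc.num_div_denom x).symm
  have hy : y = algebraMap ℂ[X] (RatFunc ℂ) p / algebraMap ℂ[X] (RatFunc ℂ) s :=
    (RatFunc.num_div_denom y).symm
  have hab : IsCoprime a b := RatFunc.isCoprime_num_denom x
  have hps : IsCoprime p s := RatFunc.isCoprime_num_denom y
  have e1 : p ^ 2 * b ^ 3 = s ^ 2 * (a ^ 3 + C c * b ^ 3) := by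
    apply RatFunc.algebraMap_injective ℂ
    rw [hx, hy] at h
    have : (RatFunc.C c : RatFunc ℂ) = algebraMap ℂ[X] (RatFunc ℂ) (C c) := (RatFunc.algebraMap_C c).symm
    rw [this] at h
    field_simp at h
    simp only [map_mul, map_add, map_pow]
    linear_combination h
  have hcop1 : IsCoprime (a ^ 3 + C c * b ^ 3) (b ^ 3) := by
    have : IsCoprime (a ^ 3) (b ^ 3) := hab.pow
    exact this.add_mul_right_left (C c)
  have hcop2 : IsCoprime (p ^ 2) (s ^ 2) := hps.pow
  have d1 : s ^ 2 ∣ b ^ 3 := by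
    apply hcop2.symm.dvd_of_dvd_mul_left
    exact ⟨_, e1⟩
  have d2 : b ^ 3 ∣ s ^ 2 := by
    apply hcop1.symm.dvd_of_dvd_mul_right
    exact ⟨p ^ 2, by rw [← e1]; ring⟩
  have hsb : s ^ 2 = b ^ 3 := by
    apply Polynomial.eq_of_monic_of_associated
    · exact (RatFunc.monic_denom y).pow 2
    · exact (RatFunc.monic_denom x).pow 3
    · exact associated_of_dvd_dvd d1 d2
  have d3 : b ∣ s := by
    rw [← IsIntegrallyClosed.pow_dvd_pow_iff (n := 2) (by norm_num)]
    rw [hsb]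
    exact ⟨b, by ring⟩
  obtain ⟨d, hd⟩ := d3
  have hbd : b = d ^ 2 := by
    have : b ^ 2 * b = b ^ 2 * d ^ 2 := by
      calc b ^ 2 * b = b ^ 3 := by ring
        _ = s ^ 2 := hsb.symm
        _ = b ^ 2 * d ^ 2 := by rw [hd]; ring
    exact mul_left_cancel₀ (pow_ne_zero 2 hb0) this
  have hd0 : d ≠ 0 := by
    rintro rfl
    apply hb0
    rw [hbd]; ring
  have e2 : p ^ 2 = a ^ 3 + C c * d ^ 6 := by
    rw [← hsb] at e1
    have h3 : s ^ 2 * (p ^ 2) = s ^ 2 * (a ^ 3 + C c * s ^ 2) := by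
      rw [← e1]; ring
    have h4 := mul_left_cancel₀ (pow_ne_zero 2 hs0) h3
    rw [h4, hsb, hbd]; ring
  have hcop3 : IsCoprime a d := by
    have : IsCoprime a (d ^ 2) := hbd ▸ hab
    exact (IsCoprime.pow_right_iff (by norm_num)).1 this
  have main : a.natDegree = 0 ∧ d.natDegree = 0 := by
    by_cases ha0 : a = 0
    · rw [ha0] at hcop3 ⊢
      rw [isCoprime_zero_left] at hcop3
      exact ⟨natDegree_zero, natDegree_eq_zero_of_isUnit hcop3⟩
    by_cases hp0 : p = 0
    · have h5 : a ^ 3 = d ^ 6 * (- C c) := by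
        rw [hp0] at e2
        linear_combination -e2
      have h6 : d ∣ a ^ 3 := by
        rw [h5]
        exact ⟨d ^ 5 * (- C c), by ring⟩
      have h7 : IsUnit d := by
        have : IsCoprime d (a ^ 3) := hcop3.symm.pow_right
        exact this.isUnit_of_dvd' dvd_rfl h6
      have h8 : a ∣ d ^ 6 := by
        have : a ∣ d ^ 6 * (- C c) := by rw [← h5]; exact dvd_pow_self _ (by norm_num)
        have hu : IsUnit (-(C c : ℂ[X])) := (isUnit_C.2 (IsUnit.mk0 _ hc)).neg
        exact (hu.dvd_mul_right).1 this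
      exact ⟨natDegree_eq_zero_of_isUnit (isUnit_of_dvd_unit h8 (h7.pow 6)),
        natDegree_eq_zero_of_isUnit h7⟩
    · have := Polynomial.flt_catalan (k := ℂ) (p := 3) (q := 6) (r := 2) (by norm_num)
        (by norm_num) (by norm_num) (by norm_num) (by norm_num) (by norm_num) (by norm_num)
        ha0 hd0 hp0 hcop3 (u := 1) (v := c) (w := -1) one_ne_zero hc (by norm_num)
        (by rw [e2]; simp)
      exact ⟨this.1, this.2.1⟩
  obtain ⟨r1, hr1⟩ := natDegree_eq_zero.1 main.1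
  obtain ⟨r2, hr2⟩ := natDegree_eq_zero.1 main.2
  refine ⟨r1 / r2 ^ 2, ?_⟩
  rw [hx, hbd, ← hr1, ← hr2]
  simp [map_div₀, map_pow]

/-- the curve equation as a polynomial over the rational function field -/
noncomputable def gg (c : ℂ) : (RatFunc ℂ)[X] := X ^ 2 - C (RatFunc.X ^ 3 + RatFunc.C c)

theorem gg_monic (c : ℂ) : (gg c).Monic := by
  unfold gg
  exact monic_X_pow_sub_C _ (by norm_num)

theorem gg_natDegree (c : ℂ) : (gg c).natDegree = 2 := by
  unfold gg
  exact natDegree_X_pow_sub_C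

theorem gg_irreducible (c : ℂ) (hc : c ≠ 0) : Irreducible (gg c) := by
  apply Polynomial.irreducible_of_degree_le_three_of_not_isRoot
  · rw [gg_natDegree]; simp
  · intro z hz
    rw [IsRoot, gg] at hz
    simp only [eval_sub, eval_pow, eval_X, eval_C] at hz
    obtain ⟨r, hr⟩ := curve_const c hc RatFunc.X z (sub_eq_zero.1 hz)
    exact RatFunc.transcendental_X (K := ℂ) (by rw [hr]; exact isAlgebraic_algebraMap (A := RatFunc ℂ) r)

theorem not_rational (c : ℂ) (hc : c ≠ 0) (hirr : Fact (Irreducible (gg c))) :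
    ¬ Nonempty (AdjoinRoot (gg c) ≃ₐ[ℂ] RatFunc ℂ) := by
  rintro ⟨e⟩
  have h1 : (e (AdjoinRoot.root (gg c))) ^ 2 =
      (e (algebraMap (RatFunc ℂ) _ RatFunc.X)) ^ 3 + RatFunc.C c := by
    have h2 : (AdjoinRoot.root (gg c)) ^ 2 =
        (algebraMap (RatFunc ℂ) (AdjoinRoot (gg c)) RatFunc.X) ^ 3
          + algebraMap ℂ (AdjoinRoot (gg c)) c := by
      have h3 : (X ^ 2 - C (RatFunc.X ^ 3 + RatFunc.C c) : (RatFunc ℂ)[X]).eval₂
          (AdjoinRoot.of (gg c)) (AdjoinRoot.root (gg c)) = 0 := AdjoinRoot.eval₂_root (gg c)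
      rw [eval₂_sub, eval₂_pow, eval₂_X, eval₂_C, sub_eq_zero] at h3
      rw [h3, map_add, map_pow]
      rfl
    have h4 := congrArg e h2
    rw [map_pow, map_add, map_pow, AlgEquiv.commutes] at h4
    exact h4
  obtain ⟨r, hr⟩ := curve_const c hc _ _ h1
  have h5 : (algebraMap (RatFunc ℂ) (AdjoinRoot (gg c)) RatFunc.X) =
      algebraMap (RatFunc ℂ) (AdjoinRoot (gg c)) (RatFunc.C r) := by
    apply e.injective
    rw [hr]
    have : algebraMap (RatFunc ℂ) (AdjoinRoot (gg c)) (RatFunc.C r) =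
      algebraMap ℂ (AdjoinRoot (gg c)) r := rfl
    rw [this, AlgEquiv.commutes]
    rfl
  have h6 := (algebraMap (RatFunc ℂ) (AdjoinRoot (gg c))).injective h5
  exact RatFunc.transcendental_X (K := ℂ) (by rw [h6]; exact isAlgebraic_algebraMap (A := RatFunc ℂ) r)

theorem ratfunc_basis : IsTranscendenceBasis ℂ (fun _ : Fin 1 => (RatFunc.X : RatFunc ℂ)) := by
  have h := IsTranscendenceBasis.polynomial (Fin 1) ℂ
  have : Algebra.IsAlgebraic ℂ[X] (RatFunc ℂ) :=
    IsLocalization.isAlgebraic (RatFunc ℂ) (nonZeroDivisors ℂ[X])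
  have h2 := h.algebraMap_comp (A := RatFunc ℂ)
  convert h2 using 1
  funext i
  simp

theorem curve_basis (c : ℂ) (hirr : Fact (Irreducible (gg c))) :
    IsTranscendenceBasis ℂ (fun _ : Fin 1 =>
      (algebraMap (RatFunc ℂ) (AdjoinRoot (gg c)) RatFunc.X)) := by
  have : Module.Finite (RatFunc ℂ) (AdjoinRoot (gg c)) := (gg_monic c).finite_adjoinRoot
  have : Algebra.IsAlgebraic (RatFunc ℂ) (AdjoinRoot (gg c)) := inferInstance
  exact ratfunc_basis.algebraMap_comp (A := AdjoinRoot (gg c))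

end Pool.Agent.Helper214.QTorus
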