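import Mathlib

set_option autoImplicit false

namespace Pool.Agent.Helper214.QTorus

open Polynomial
open scoped IsMulCommutative

theorem exists_hom_general {F A : Type*} [Field F] [Algebra ℂ F] [Ring A] [Algebra F A]
    [Algebra ℂ A] [IsScalarTower ℂ F A] [Module.Finite F A] (X0 Y0 : A)
    (hXY : X0 * Y0 = Y0 * X0) (c : ℂ) (hY : Y0 * Y0 = X0 * X0 * X0 + algebraMap ℂ A c)
    (hinj : ∀ (r : ℂ) (b : A), X0 * b = algebraMap ℂ A r * b → b = 0)
    (g : (RatFunc ℂ)[X]) (hg : g = X ^ 2 - C (RatFunc.X ^ 3 + RatFunc.C c)) :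
    Nonempty (AdjoinRoot g →ₐ[ℂ] A) := by
  have hcomm : ∀ a ∈ ({X0, Y0} : Set A), ∀ b ∈ ({X0, Y0} : Set A), a * b = b * a := by
    rintro a (rfl | rfl) b (rfl | rfl)
    · rfl
    · exact hXY
    · exact hXY.symm
    · rfl
  have := Algebra.isMulCommutative_adjoin F hcomm
  set x : Algebra.adjoin F ({X0, Y0} : Set A) := ⟨X0, Algebra.subset_adjoin (by simp)⟩ with hx
  set y : Algebra.adjoin F ({X0, Y0} : Set A) := ⟨Y0, Algebra.subset_adjoin (by simp)⟩ with hy
  have hu : ∀ r : ℂ, IsUnit (x - algebraMap ℂ (Algebra.adjoin F ({X0, Y0} : Set A)) r) := by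
    intro r
    have hinj2 : Function.Injective (LinearMap.mulLeft F
        (x - algebraMap ℂ (Algebra.adjoin F ({X0, Y0} : Set A)) r)) := by
      rw [injective_iff_map_eq_zero]
      intro b hb
      apply Subtype.ext
      apply hinj r
      rw [LinearMap.mulLeft_apply, sub_mul, sub_eq_zero] at hb
      exact congrArg Subtype.val hb
    have hsurj := LinearMap.injective_iff_surjective.1 hinj2
    obtain ⟨b, hb⟩ := hsurj 1
    exact IsUnit.of_mul_eq_one b hb
  have hu2 : ∀ p : nonZeroDivisors (ℂ[X]), IsUnit (aeval x (p : ℂ[X])) := by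
    rintro ⟨p, hp⟩
    have hp0 : p ≠ 0 := nonZeroDivisors.ne_zero hp
    have hs := IsAlgClosed.splits p
    simp only
    rw [hs.eq_prod_roots]
    simp only [map_mul, aeval_C]
    apply IsUnit.mul
    · exact (IsUnit.mk0 _ (leadingCoeff_ne_zero.2 hp0)).map _
    · rw [map_multiset_prod, Multiset.map_map]
      generalize p.roots = s
      induction s using Multiset.induction_on with
      | empty => simp
      | cons a s ih =>
        rw [Multiset.map_cons, Multiset.prod_cons]
        apply IsUnit.mul _ ih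
        simpa using hu a
  let i : RatFunc ℂ →ₐ[ℂ] Algebra.adjoin F ({X0, Y0} : Set A) :=
    IsLocalization.liftAlgHom (M := nonZeroDivisors (ℂ[X])) (f := aeval x) hu2
  have hiX : i RatFunc.X = x := by
    have : i (algebraMap ℂ[X] (RatFunc ℂ) X) = aeval x (X : ℂ[X]) := by
      simp only [i, IsLocalization.liftAlgHom_apply, IsLocalization.lift_eq]
      rfl
    rw [RatFunc.algebraMap_X, aeval_X] at this
    exact this
  have hroot : g.eval₂ i y = 0 := by
    rw [hg, eval₂_sub, eval₂_pow, eval₂_X, eval₂_C]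
    have hiC : i (RatFunc.C c) = algebraMap ℂ _ c := by
      have : RatFunc.C c = algebraMap ℂ (RatFunc ℂ) c := rfl
      rw [this, AlgHom.commutes]
    have e : (i : RatFunc ℂ →+* Algebra.adjoin F ({X0, Y0} : Set A)) (RatFunc.X ^ 3 + RatFunc.C c)
        = x ^ 3 + algebraMap ℂ _ c := by
      rw [map_add, map_pow]
      show i RatFunc.X ^ 3 + i (RatFunc.C c) = _
      rw [hiX, hiC]
    rw [e, sub_eq_zero]
    apply Subtype.ext
    show Y0 ^ 2 = X0 ^ 3 + algebraMap ℂ A c
    rw [pow_two, hY, pow_succ, pow_two]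
  exact ⟨((Algebra.adjoin F ({X0, Y0} : Set A)).val.restrictScalars ℂ).comp
    (AdjoinRoot.liftAlgHom g i y hroot)⟩

end Pool.Agent.Helper214.QTorus
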