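import Mathlib

set_option autoImplicit false

namespace Pool.Agent.Helper214.QTorus

section
variable {R : Type*} [Ring R] [Algebra ℂ R] (m : ℤ → ℤ → R) (q : ℂ)

/-- the element of polygon degree two -/
noncomputable def Xel : R :=
  m (-2) 0 + (1 + q⁻¹) • m (-1) 1 + (1 + q) • m 0 (-1) + m 0 2 + (q⁻¹ + q ^ 2) • m 1 0
    + q⁻¹ • m 2 (-2)

/-- the element of polygon degree three -/
noncomputable def Yel : R :=
  m (-3) 0 + (1 + q⁻¹ + q⁻¹ ^ 2) • m (-2) 1 + (1 + q + q ^ 2) • m (-1) (-1)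
    + (1 + q⁻¹ + q⁻¹ ^ 2) • m (-1) 2 + ((3 / 2) * (1 + q + q ^ 2 + q⁻¹)) • m 0 0 + m 0 3
    + (1 + q + q⁻¹) • m 1 (-2) + (q + q ^ 3 + q⁻¹) • m 1 1 + (1 + q ^ 2 + q⁻¹ ^ 2) • m 2 (-1)
    + (q⁻¹ ^ 3) • m 3 (-3)

theorem XY_comm (hq : q ≠ 0)
    (hm : ∀ i j k l : ℤ, m i j * m k l = (q ^ (j * k)) • m (i + k) (j + l)) :
    Xel m q * Yel m q = Yel m q * Xel m q := by
  simp only [Xel, Yel, add_mul, mul_add, smul_mul_assoc, mul_smul_comm, hm]
  norm_num [smul_smul]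
  match_scalars <;> field_simp <;> ring

theorem Y_sq (hq : q ≠ 0)
    (hm : ∀ i j k l : ℤ, m i j * m k l = (q ^ (j * k)) • m (i + k) (j + l)) :
    Yel m q * Yel m q = Xel m q * Xel m q * Xel m q + ((1 - q) ^ 6 / (4 * q ^ 2)) • m 0 0 := by
  simp only [Xel, Yel, add_mul, mul_add, smul_mul_assoc, mul_smul_comm, hm, smul_add, smul_smul]
  norm_num [smul_smul]
  match_scalars <;> field_simp <;> ring

end

end Pool.Agent.Helper214.QTorus
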