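import Mathlib
import Pool.Agent.Helper214.QTorus

set_option autoImplicit false

namespace Pool.Agent.Helper214.QTorus

section mon
variable {R : Type*} [Ring R]

/-- the normally ordered monomial -/
def mon (x y : Rˣ) (i j : ℤ) : R := ((x ^ i * y ^ j : Rˣ) : R)

theorem mon_zero (x y : Rˣ) : mon x y 0 0 = 1 := by simp [mon]

variable [Algebra ℂ R] (x y : Rˣ) (q : ℂ)

theorem mon_mul (hq : q ≠ 0) (h : (y : R) * (x : R) = q • ((x : R) * (y : R))) (i j k l : ℤ) :
    mon x y i j * mon x y k l = (q ^ (j * k)) • mon x y (i + k) (j + l) := by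
  set c : Rˣ := Units.map (algebraMap ℂ R).toMonoidHom (Units.mk0 q hq) with hc
  have hcc : ∀ z : Rˣ, Commute c z := by
    intro z
    apply Units.ext
    simp [hc, Algebra.commutes]
  have hcval : ∀ (t : ℤ) (z : Rˣ), ((c ^ t * z : Rˣ) : R) = (q ^ t) • (z : R) := by
    intro t z
    rw [hc, ← map_zpow, Units.val_mul, Algebra.smul_def, Units.coe_map]
    simp [Units.val_zpow_eq_zpow_val]
  have h1 : SemiconjBy y x (c * x) := by
    apply Units.ext
    have := hcval 1 (x * y)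
    simp only [zpow_one] at this
    rw [mul_assoc, this, Units.val_mul, h, Units.val_mul]
  have key : ∀ j k : ℤ, y ^ j * x ^ k = c ^ (j * k) * (x ^ k * y ^ j) := by
    intro j k
    have h2 := h1.zpow_right k
    rw [(hcc x).mul_zpow] at h2
    have h2' : y * x ^ k = c ^ k * x ^ k * y := h2
    have h3 : SemiconjBy (x ^ k)⁻¹ y (c ^ k * y) := by
      show (x ^ k)⁻¹ * y = (c ^ k * y) * (x ^ k)⁻¹
      rw [eq_mul_inv_iff_mul_eq, mul_assoc, h2', ((hcc (x ^ k)).zpow_left k).eq]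
      group
    have h4 := h3.zpow_right j
    rw [((hcc y).zpow_left k).mul_zpow, ← zpow_mul, mul_comm k j] at h4
    have h5 : (x ^ k)⁻¹ * y ^ j = (c ^ (j * k) * y ^ j) * (x ^ k)⁻¹ := h4
    have h6 : y ^ j = x ^ k * ((c ^ (j * k) * y ^ j) * (x ^ k)⁻¹) := by
      rw [← h5, mul_inv_cancel_left]
    calc y ^ j * x ^ k = x ^ k * ((c ^ (j * k) * y ^ j) * (x ^ k)⁻¹) * x ^ k := by rw [← h6]
      _ = x ^ k * (c ^ (j * k) * y ^ j) := by group
      _ = c ^ (j * k) * (x ^ k * y ^ j) := by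
        rw [← mul_assoc, ← ((hcc (x ^ k)).zpow_left (j * k)).eq, mul_assoc]
  unfold mon
  rw [← Units.val_mul]
  rw [← hcval]
  congr 1
  calc x ^ i * y ^ j * (x ^ k * y ^ l) = x ^ i * (y ^ j * x ^ k) * y ^ l := by group
    _ = x ^ i * (c ^ (j * k) * (x ^ k * y ^ j)) * y ^ l := by rw [key]
    _ = c ^ (j * k) * (x ^ i * (x ^ k * y ^ j)) * y ^ l := by
        rw [← mul_assoc (x ^ i), ← ((hcc (x ^ i)).zpow_left (j * k)).eq, mul_assoc (c ^ (j * k))]
    _ = c ^ (j * k) * (x ^ (i + k) * y ^ (j + l)) := by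
        rw [zpow_add, zpow_add]; simp only [mul_assoc]

end mon

end Pool.Agent.Helper214.QTorus
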