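import Mathlib
import Pool.Agent.Helper214.Mon

set_option autoImplicit false

namespace Pool.Agent.Helper214.QTorus

/-- the field of rational functions in two variables -/
abbrev F := FractionRing (MvPolynomial (Fin 2) ℂ)

/-- the variable number `i` in the rational function field -/
noncomputable def uu (i : Fin 2) : F :=
  algebraMap (MvPolynomial (Fin 2) ℂ) (FractionRing (MvPolynomial (Fin 2) ℂ))
    (MvPolynomial.X i)

/-- the defining relations -/
abbrev rel (n : ℕ) (ζ : ℂ) :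
    FreeAlgebra (FractionRing (MvPolynomial (Fin 2) ℂ)) (Fin 2) →
    FreeAlgebra (FractionRing (MvPolynomial (Fin 2) ℂ)) (Fin 2) → Prop :=
  (fun a b : FreeAlgebra (FractionRing (MvPolynomial (Fin 2) ℂ)) (Fin 2) =>
            (a = FreeAlgebra.ι (FractionRing (MvPolynomial (Fin 2) ℂ)) (0 : Fin 2) ^ n ∧
              b = algebraMap (FractionRing (MvPolynomial (Fin 2) ℂ))
                (FreeAlgebra (FractionRing (MvPolynomial (Fin 2) ℂ)) (Fin 2))
                (algebraMap (MvPolynomial (Fin 2) ℂ) (FractionRing (MvPolynomial (Fin 2) ℂ))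
                  (MvPolynomial.X (0 : Fin 2)))) ∨
            (a = FreeAlgebra.ι (FractionRing (MvPolynomial (Fin 2) ℂ)) (1 : Fin 2) ^ n ∧
              b = algebraMap (FractionRing (MvPolynomial (Fin 2) ℂ))
                (FreeAlgebra (FractionRing (MvPolynomial (Fin 2) ℂ)) (Fin 2))
                (algebraMap (MvPolynomial (Fin 2) ℂ) (FractionRing (MvPolynomial (Fin 2) ℂ))
                  (MvPolynomial.X (1 : Fin 2)))) ∨
            (a = FreeAlgebra.ι (FractionRing (MvPolynomial (Fin 2) ℂ)) (0 : Fin 2) *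
                  FreeAlgebra.ι (FractionRing (MvPolynomial (Fin 2) ℂ)) (1 : Fin 2) ∧
              b = algebraMap ℂ (FreeAlgebra (FractionRing (MvPolynomial (Fin 2) ℂ)) (Fin 2)) ζ *
                  (FreeAlgebra.ι (FractionRing (MvPolynomial (Fin 2) ℂ)) (1 : Fin 2) *
                    FreeAlgebra.ι (FractionRing (MvPolynomial (Fin 2) ℂ)) (0 : Fin 2))))

abbrev A (n : ℕ) (ζ : ℂ) := RingQuot (rel n ζ)

variable {n : ℕ} {ζ : ℂ}

/-- the generators -/
noncomputable def gen (n : ℕ) (ζ : ℂ) (i : Fin 2) : A n ζ :=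
  RingQuot.mkAlgHom F (rel n ζ) (FreeAlgebra.ι F i)

theorem gen_zero_pow : (gen n ζ 0) ^ n = algebraMap F (A n ζ) (uu 0) := by
  have h : RingQuot.mkAlgHom F (rel n ζ) (FreeAlgebra.ι F 0 ^ n)
      = RingQuot.mkAlgHom F (rel n ζ) (algebraMap F _ (uu 0)) := by
    apply RingQuot.mkAlgHom_rel
    left; exact ⟨rfl, rfl⟩
  rw [map_pow, AlgHom.commutes] at h
  exact h

theorem gen_one_pow : (gen n ζ 1) ^ n = algebraMap F (A n ζ) (uu 1) := by
  have h : RingQuot.mkAlgHom F (rel n ζ) (FreeAlgebra.ι F 1 ^ n)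
      = RingQuot.mkAlgHom F (rel n ζ) (algebraMap F _ (uu 1)) := by
    apply RingQuot.mkAlgHom_rel
    right; left; exact ⟨rfl, rfl⟩
  rw [map_pow, AlgHom.commutes] at h
  exact h

theorem gen_comm : (gen n ζ 0) * (gen n ζ 1) =
    algebraMap F (A n ζ) (algebraMap ℂ F ζ) * ((gen n ζ 1) * (gen n ζ 0)) := by
  have h : RingQuot.mkAlgHom F (rel n ζ) (FreeAlgebra.ι F 0 * FreeAlgebra.ι F 1)
      = RingQuot.mkAlgHom F (rel n ζ)
        (algebraMap ℂ (FreeAlgebra F (Fin 2)) ζ * (FreeAlgebra.ι F 1 * FreeAlgebra.ι F 0)) := by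
    apply RingQuot.mkAlgHom_rel
    right; right; exact ⟨rfl, rfl⟩
  rw [IsScalarTower.algebraMap_apply ℂ F (FreeAlgebra F (Fin 2))] at h
  simp only [map_mul, AlgHom.commutes] at h
  exact h

theorem uu_ne (i : Fin 2) : uu i ≠ 0 := by
  unfold uu
  rw [Ne, IsFractionRing.to_map_eq_zero_iff]
  exact MvPolynomial.X_ne_zero i

theorem gen_isUnit (hn : n ≠ 0) (i : Fin 2) : IsUnit (gen n ζ i) := by
  have h : IsUnit ((gen n ζ i) ^ n) := by
    have h2 : (gen n ζ i) ^ n = algebraMap F (A n ζ) (uu i) := by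
      fin_cases i
      · exact gen_zero_pow
      · exact gen_one_pow
    rw [h2]
    exact (IsUnit.mk0 _ (uu_ne i)).map _
  exact (isUnit_pow_iff hn).1 h

/-- generators as units -/
noncomputable def ug (hn : n ≠ 0) (ζ : ℂ) (i : Fin 2) : (A n ζ)ˣ := (gen_isUnit (ζ := ζ) hn i).unit

theorem ug_comm (hn : n ≠ 0) (hζ : ζ ≠ 0) :
    ((ug hn ζ 1 : (A n ζ)ˣ) : A n ζ) * ((ug hn ζ 0 : (A n ζ)ˣ) : A n ζ)
      = ζ⁻¹ • (((ug hn ζ 0 : (A n ζ)ˣ) : A n ζ) * ((ug hn ζ 1 : (A n ζ)ˣ) : A n ζ)) := by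
  unfold ug
  rw [IsUnit.unit_spec, IsUnit.unit_spec, gen_comm, Algebra.smul_def]
  rw [IsScalarTower.algebraMap_apply ℂ F (A n ζ), ← mul_assoc, ← map_mul, ← map_mul,
    inv_mul_cancel₀ hζ]
  simp

/-- finite-dimensionality -/
theorem span_all (hζ : ζ ≠ 0) : Submodule.span F (Set.range (fun p : ℕ × ℕ =>
    (gen n ζ 0) ^ p.1 * (gen n ζ 1) ^ p.2)) = ⊤ := by
  set S := Submodule.span F (Set.range (fun p : ℕ × ℕ =>
    (gen n ζ 0) ^ p.1 * (gen n ζ 1) ^ p.2)) with hS
  have hyx : ∀ i : ℕ, (gen n ζ 1) * (gen n ζ 0) ^ i =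
      (algebraMap F (A n ζ) (algebraMap ℂ F ζ⁻¹)) ^ i * ((gen n ζ 0) ^ i * (gen n ζ 1)) := by
    intro i
    have h1 : (gen n ζ 1) * (gen n ζ 0) =
      (algebraMap F (A n ζ) (algebraMap ℂ F ζ⁻¹)) * ((gen n ζ 0) * (gen n ζ 1)) := by
      rw [gen_comm, ← mul_assoc, ← map_mul, ← map_mul, inv_mul_cancel₀ hζ]
      simp
    induction i with
    | zero => simp
    | succ i ih =>
      rw [pow_succ, ← mul_assoc, ih, mul_assoc, mul_assoc, h1]
      rw [← mul_assoc ((gen n ζ 0) ^ i), ← Algebra.commutes, pow_succ]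
      simp only [mul_assoc]
  have hx : ∀ a ∈ S, gen n ζ 0 * a ∈ S := by
    intro a ha
    induction ha using Submodule.span_induction with
    | mem a ha =>
      obtain ⟨⟨i, j⟩, rfl⟩ := ha
      apply Submodule.subset_span
      exact ⟨(i + 1, j), by simp [pow_succ', mul_assoc]⟩
    | zero => simp
    | add a b _ _ h1 h2 => rw [mul_add]; exact S.add_mem h1 h2
    | smul r a _ h => rw [mul_smul_comm]; exact S.smul_mem _ h
  have hy : ∀ a ∈ S, gen n ζ 1 * a ∈ S := by
    intro a ha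
    induction ha using Submodule.span_induction with
    | mem a ha =>
      obtain ⟨⟨i, j⟩, rfl⟩ := ha
      simp only
      rw [← mul_assoc, hyx, ← map_pow, mul_assoc, mul_assoc, ← Algebra.smul_def, ← pow_succ']
      apply S.smul_mem
      apply Submodule.subset_span
      exact ⟨(i, j + 1), rfl⟩
    | zero => simp
    | add a b _ _ h1 h2 => rw [mul_add]; exact S.add_mem h1 h2
    | smul r a _ h => rw [mul_smul_comm]; exact S.smul_mem _ h
  have hone : (1 : A n ζ) ∈ S := Submodule.subset_span ⟨(0, 0), by simp⟩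
  have hall : ∀ b : FreeAlgebra F (Fin 2), ∀ a ∈ S, RingQuot.mkAlgHom F (rel n ζ) b * a ∈ S := by
    intro b
    induction b using FreeAlgebra.induction with
    | grade0 r =>
      intro a ha
      rw [AlgHom.commutes, ← Algebra.smul_def]
      exact S.smul_mem _ ha
    | grade1 i =>
      intro a ha
      fin_cases i
      · exact hx a ha
      · exact hy a ha
    | mul b c hb hc =>
      intro a ha
      rw [map_mul, mul_assoc]
      exact hb _ (hc _ ha)
    | add b c hb hc =>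
      intro a ha
      rw [map_add, add_mul]
      exact S.add_mem (hb a ha) (hc a ha)
  rw [eq_top_iff]
  intro a _
  obtain ⟨b, rfl⟩ := RingQuot.mkAlgHom_surjective F (rel n ζ) a
  simpa using hall b 1 hone

theorem span_fin (hn : n ≠ 0) (hζ : ζ ≠ 0) :
    Submodule.span F (Set.range (fun p : Fin n × Fin n =>
      (gen n ζ 0) ^ (p.1 : ℕ) * (gen n ζ 1) ^ (p.2 : ℕ))) = ⊤ := by
  rw [eq_top_iff, ← span_all hζ, Submodule.span_le]
  rintro _ ⟨⟨i, j⟩, rfl⟩
  have hi : (gen n ζ 0) ^ i = algebraMap F (A n ζ) (uu 0 ^ (i / n)) * (gen n ζ 0) ^ (i % n) := by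
    conv_lhs => rw [← Nat.div_add_mod i n, pow_add, pow_mul, gen_zero_pow, ← map_pow]
  have hj : (gen n ζ 1) ^ j = algebraMap F (A n ζ) (uu 1 ^ (j / n)) * (gen n ζ 1) ^ (j % n) := by
    conv_lhs => rw [← Nat.div_add_mod j n, pow_add, pow_mul, gen_one_pow, ← map_pow]
  have : (gen n ζ 0) ^ i * (gen n ζ 1) ^ j = (uu 0 ^ (i / n) * uu 1 ^ (j / n)) •
      ((gen n ζ 0) ^ (i % n) * (gen n ζ 1) ^ (j % n)) := by
    rw [hi, hj, Algebra.smul_def, map_mul]
    rw [mul_assoc, ← mul_assoc ((gen n ζ 0) ^ (i % n)), ← Algebra.commutes]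
    simp only [mul_assoc]
  simp only [SetLike.mem_coe]
  rw [this]
  apply Submodule.smul_mem
  apply Submodule.subset_span
  exact ⟨(⟨i % n, Nat.mod_lt _ (Nat.pos_of_ne_zero hn)⟩, ⟨j % n, Nat.mod_lt _ (Nat.pos_of_ne_zero hn)⟩), rfl⟩

theorem finite (hn : n ≠ 0) (hζ : ζ ≠ 0) : Module.Finite F (A n ζ) := by
  refine ⟨?_⟩
  rw [← span_fin hn hζ]
  exact Submodule.fg_span (Set.finite_range _)

end Pool.Agent.Helper214.QTorus
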