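import Mathlib
import Pool.Agent.Helper214.Pres

set_option autoImplicit false

namespace Pool.Agent.Helper214.QTorus

/-- the endomorphism of the function field raising both variables to the power `n` -/
noncomputable def th (n : ℕ) (hn : 0 < n) : F →+* F :=
  IsFractionRing.lift (A := MvPolynomial (Fin 2) ℂ) (K := F)
    (g := (algebraMap (MvPolynomial (Fin 2) ℂ) F).comp
      (MvPolynomial.expand (R := ℂ) (σ := Fin 2) n).toRingHom)
    (by
      have h1 : Function.Injective (algebraMap (MvPolynomial (Fin 2) ℂ) F) :=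
        IsFractionRing.injective _ _
      exact h1.comp (MvPolynomial.expand_injective hn))

theorem th_uu (n : ℕ) (hn : 0 < n) (i : Fin 2) : th n hn (uu i) = uu i ^ n := by
  unfold th uu
  rw [IsFractionRing.lift_algebraMap]
  simp [map_pow]

theorem th_C (n : ℕ) (hn : 0 < n) (c : ℂ) : th n hn (algebraMap ℂ F c) = algebraMap ℂ F c := by
  unfold th
  rw [IsScalarTower.algebraMap_apply ℂ (MvPolynomial (Fin 2) ℂ) F, IsFractionRing.lift_algebraMap]
  simp [MvPolynomial.algebraMap_eq]

/-- copy of the function field, an extension of the original one -/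
def L (n : ℕ) : Type := F

noncomputable instance (n : ℕ) : Field (L n) := inferInstanceAs (Field F)

noncomputable instance (n : ℕ) [NeZero n] : Algebra F (L n) :=
  (th n (Nat.pos_of_ne_zero (NeZero.ne n)) : F →+* F).toAlgebra

noncomputable instance (n : ℕ) : Algebra ℂ (L n) := inferInstanceAs (Algebra ℂ F)

theorem algebraMap_L (n : ℕ) [NeZero n] (z : F) :
    algebraMap F (L n) z = (th n (Nat.pos_of_ne_zero (NeZero.ne n)) z : F) := rfl

instance (n : ℕ) [NeZero n] : IsScalarTower ℂ F (L n) := by
  apply IsScalarTower.of_algebraMap_eq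
  intro c
  rw [algebraMap_L, th_C]
  rfl

/-- the n-th roots of the variables -/
noncomputable def aa (n : ℕ) (i : Fin 2) : L n := (uu i : F)

theorem aa_pow (n : ℕ) [NeZero n] (i : Fin 2) : (aa n i) ^ n = algebraMap F (L n) (uu i) := by
  rw [algebraMap_L, th_uu]
  rfl

theorem aa_ne (n : ℕ) (i : Fin 2) : aa n i ≠ 0 := uu_ne i

/-- the character -/
noncomputable def chi {n : ℕ} (ζ : ℂ) (k : ZMod n) : ℂ := ζ ^ k.val

theorem chi_succ {n : ℕ} [NeZero n] {ζ : ℂ} (h : ζ ^ n = 1) (k : ZMod n) :
    chi ζ (k + 1) = ζ * chi ζ k := by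
  unfold chi
  rw [← pow_succ', ZMod.val_add, ← pow_eq_pow_mod _ h, pow_add, pow_succ]
  congr 1
  rcases Nat.lt_or_ge 1 n with h1 | h1
  · have : Fact (1 < n) := ⟨h1⟩
    rw [ZMod.val_one]; simp
  · have : n = 1 := le_antisymm h1 (Nat.one_le_iff_ne_zero.2 (NeZero.ne n))
    subst this
    simp at h
    simp [h]

theorem chi_pow {n : ℕ} {ζ : ℂ} (h : ζ ^ n = 1) (k : ZMod n) : (chi ζ k) ^ n = 1 := by
  unfold chi
  rw [← pow_mul, mul_comm, pow_mul, h, one_pow]

/-- the representation space -/
abbrev N (n : ℕ) := ZMod n → L n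

/-- the operator representing the first generator -/
noncomputable def opx (n : ℕ) (ζ : ℂ) : Module.End (L n) (N n) where
  toFun w := fun k => (aa n 0 * algebraMap ℂ (L n) (chi ζ k)) * w k
  map_add' w w' := by funext k; simp [mul_add]
  map_smul' c w := by funext k; simp; ring

noncomputable def opy (n : ℕ) : Module.End (L n) (N n) where
  toFun w := fun k => aa n 1 * w (k - 1)
  map_add' w w' := by funext k; simp [mul_add]
  map_smul' c w := by funext k; simp; ring

theorem opx_apply (n : ℕ) (ζ : ℂ) (w : N n) (k : ZMod n) :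
    opx n ζ w k = (aa n 0 * algebraMap ℂ (L n) (chi ζ k)) * w k := rfl

theorem opy_apply (n : ℕ) (w : N n) (k : ZMod n) :
    opy n w k = aa n 1 * w (k - 1) := rfl

theorem opx_pow_apply (n : ℕ) (ζ : ℂ) (i : ℕ) (w : N n) (k : ZMod n) :
    (opx n ζ ^ i) w k = (aa n 0 * algebraMap ℂ (L n) (chi ζ k)) ^ i * w k := by
  induction i generalizing w with
  | zero => simp
  | succ i ih =>
    rw [pow_succ, Module.End.mul_apply, ih, opx_apply]
    ring

theorem opy_pow_apply (n : ℕ) (j : ℕ) (w : N n) (k : ZMod n) :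
    (opy n ^ j) w k = (aa n 1) ^ j * w (k - j) := by
  induction j generalizing w k with
  | zero => simp
  | succ i ih =>
    rw [pow_succ, Module.End.mul_apply, ih, opy_apply]
    push_cast
    rw [sub_sub]
    ring

theorem opx_pow_n (n : ℕ) [NeZero n] {ζ : ℂ} (h : ζ ^ n = 1) :
    opx n ζ ^ n = algebraMap F (Module.End (L n) (N n)) (uu 0) := by
  apply LinearMap.ext
  intro w
  funext k
  rw [opx_pow_apply, mul_pow, ← map_pow, chi_pow h, map_one, mul_one, aa_pow]
  simp only [Module.algebraMap_end_apply, Pi.smul_apply, Algebra.smul_def]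

theorem opy_pow_n (n : ℕ) [NeZero n] :
    opy n ^ n = algebraMap F (Module.End (L n) (N n)) (uu 1) := by
  apply LinearMap.ext
  intro w
  funext k
  rw [opy_pow_apply, aa_pow]
  simp only [Module.algebraMap_end_apply, Pi.smul_apply, Algebra.smul_def]
  simp

theorem op_comm (n : ℕ) [NeZero n] {ζ : ℂ} (h : ζ ^ n = 1) :
    opx n ζ * opy n = algebraMap F (Module.End (L n) (N n)) (algebraMap ℂ F ζ) *
      (opy n * opx n ζ) := by
  apply LinearMap.ext
  intro w
  funext k
  simp only [Module.End.mul_apply, Module.algebraMap_end_apply, Pi.smul_apply,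
    opx_apply, opy_apply]
  have := chi_succ h (k - 1)
  rw [sub_add_cancel] at this
  rw [this, Algebra.smul_def, ← IsScalarTower.algebraMap_apply, map_mul]
  ring

/-- the representation -/
noncomputable def phi (n : ℕ) [NeZero n] (ζ : ℂ) (h : ζ ^ n = 1) :
    A n ζ →ₐ[F] Module.End (L n) (N n) :=
  RingQuot.liftAlgHom F ⟨FreeAlgebra.lift F ![opx n ζ, opy n], by
    intro a b hab
    rcases hab with ⟨rfl, rfl⟩ | ⟨rfl, rfl⟩ | ⟨rfl, rfl⟩
    · rw [map_pow, FreeAlgebra.lift_ι_apply, AlgHom.commutes]
      exact opx_pow_n n h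
    · rw [map_pow, FreeAlgebra.lift_ι_apply, AlgHom.commutes]
      exact opy_pow_n n
    · rw [IsScalarTower.algebraMap_apply ℂ F (FreeAlgebra F (Fin 2))]
      simp only [map_mul, FreeAlgebra.lift_ι_apply, AlgHom.commutes]
      exact op_comm n h⟩

theorem phi_gen_zero (n : ℕ) [NeZero n] (ζ : ℂ) (h : ζ ^ n = 1) :
    phi n ζ h (gen n ζ 0) = opx n ζ := by
  unfold phi gen
  rw [RingQuot.liftAlgHom_mkAlgHom_apply, FreeAlgebra.lift_ι_apply]
  rfl

theorem phi_gen_one (n : ℕ) [NeZero n] (ζ : ℂ) (h : ζ ^ n = 1) :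
    phi n ζ h (gen n ζ 1) = opy n := by
  unfold phi gen
  rw [RingQuot.liftAlgHom_mkAlgHom_apply, FreeAlgebra.lift_ι_apply]
  rfl

theorem phi_injective (n : ℕ) [NeZero n] (ζ : ℂ) (hp : IsPrimitiveRoot ζ n) :
    Function.Injective (phi n ζ hp.pow_eq_one) := by
  have hn := NeZero.ne n
  have hζ : ζ ≠ 0 := hp.ne_zero hn
  rw [injective_iff_map_eq_zero]
  intro a ha
  have hmem : a ∈ Submodule.span F (Set.range (fun p : Fin n × Fin n =>
      (gen n ζ 0) ^ (p.1 : ℕ) * (gen n ζ 1) ^ (p.2 : ℕ))) := by
    rw [span_fin hn hζ]; trivial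
  rw [Submodule.mem_span_range_iff_exists_fun] at hmem
  obtain ⟨c, rfl⟩ := hmem
  rw [map_sum] at ha
  simp only [map_smul, map_mul, map_pow, phi_gen_zero, phi_gen_one] at ha
  have hc : ∀ j : Fin n, ∀ i : Fin n, c (i, j) = 0 := by
    intro j
    have key : (fun i : Fin n => algebraMap F (L n) (c (i, j)) * (aa n 0) ^ (i : ℕ)
        * (aa n 1) ^ (j : ℕ)) = 0 := by
      apply Matrix.eq_zero_of_forall_index_sum_pow_mul_eq_zero
        (f := fun k : Fin n => algebraMap ℂ (L n) (chi ζ ((k : ℕ) : ZMod n)))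
      · intro k l hkl
        have h1 : chi ζ ((k : ℕ) : ZMod n) = chi ζ ((l : ℕ) : ZMod n) :=
          (algebraMap ℂ (L n)).injective hkl
        unfold chi at h1
        rw [ZMod.val_natCast_of_lt k.2, ZMod.val_natCast_of_lt l.2] at h1
        exact Fin.ext (hp.pow_inj k.2 l.2 h1)
      · intro k
        have h2 := congrArg (fun T : Module.End (L n) (N n) =>
          T (Pi.single ((k : ℕ) - (j : ℕ) : ZMod n) 1) ((k : ℕ) : ZMod n)) ha
        simp only [LinearMap.sum_apply, Finset.sum_apply, LinearMap.smul_apply, Pi.smul_apply,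
          Module.End.mul_apply, opx_pow_apply, opy_pow_apply, LinearMap.zero_apply,
          Pi.zero_apply] at h2
        rw [Fintype.sum_prod_type, Finset.sum_comm] at h2
        rw [Finset.sum_eq_single j] at h2
        · rw [← h2]
          apply Finset.sum_congr rfl
          intro i _
          simp only [Pi.single_eq_same, mul_one, Algebra.smul_def]
          ring
        · intro j' _ hj'
          apply Finset.sum_eq_zero
          intro i _
          rw [Pi.single_eq_of_ne]
          · simp
          · intro h3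
            apply hj'
            have h4 : ((j' : ℕ) : ZMod n) = ((j : ℕ) : ZMod n) := by
              have := sub_right_inj.1 h3
              exact this
            rw [ZMod.natCast_eq_natCast_iff'] at h4
            rw [Nat.mod_eq_of_lt j'.2, Nat.mod_eq_of_lt j.2] at h4
            exact Fin.ext h4
        · intro h; exact absurd (Finset.mem_univ j) h
    intro i
    have h5 := congrFun key i
    simp only [Pi.zero_apply, mul_eq_zero, pow_eq_zero_iff', aa_ne, false_and, or_false] at h5
    exact (map_eq_zero _).1 h5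
  apply Finset.sum_eq_zero
  rintro ⟨i, j⟩ _
  rw [hc, zero_smul]

end Pool.Agent.Helper214.QTorus
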