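import Mathlib
import Pool.Agent.Helper214.Model

set_option autoImplicit false

namespace Pool.Agent.Helper214.QTorus

open WithZero Classical in
/-- total degree as a valuation on polynomials -/
noncomputable def dv0 : Valuation (MvPolynomial (Fin 2) ℂ) (WithZero (Multiplicative ℤ)) where
  toFun p := if p = 0 then 0 else WithZero.exp (p.totalDegree : ℤ)
  map_zero' := by simp
  map_one' := by simp
  map_mul' p q := by
    by_cases hp : p = 0
    · simp [hp]
    by_cases hq : q = 0
    · simp [hq]
    have hpq : p * q ≠ 0 := mul_ne_zero hp hq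
    rw [if_neg hp, if_neg hq, if_neg hpq, MvPolynomial.totalDegree_mul_of_isDomain hp hq,
      Nat.cast_add, WithZero.exp_add]
  map_add_le_max' p q := by
    by_cases hp : p = 0
    · simp [hp]
    by_cases hq : q = 0
    · simp [hq]
    by_cases hpq : p + q = 0
    · simp [hpq]
    rw [if_neg hp, if_neg hq, if_neg hpq]
    have := MvPolynomial.totalDegree_add p q
    rw [le_max_iff] at this ⊢
    rcases this with h | h
    · left; rw [WithZero.exp_le_exp]; exact_mod_cast h
    · right; rw [WithZero.exp_le_exp]; exact_mod_cast h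

theorem dv0_supp : (nonZeroDivisors (MvPolynomial (Fin 2) ℂ)) ≤ dv0.supp.primeCompl := by
  intro p hp
  have hp0 : p ≠ 0 := nonZeroDivisors.ne_zero hp
  show p ∉ dv0.supp
  rw [Valuation.mem_supp_iff]
  show ¬ (if p = 0 then 0 else WithZero.exp (p.totalDegree : ℤ)) = 0
  rw [if_neg hp0]
  simp

noncomputable def dv : Valuation F (WithZero (Multiplicative ℤ)) :=
  dv0.extendToLocalization dv0_supp F

theorem dv_map (p : MvPolynomial (Fin 2) ℂ) (hp : p ≠ 0) :
    dv (algebraMap _ F p) = WithZero.exp (p.totalDegree : ℤ) := by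
  unfold dv
  rw [Valuation.extendToLocalization_apply_map_apply]
  show (if p = 0 then 0 else WithZero.exp (p.totalDegree : ℤ)) = _
  rw [if_neg hp]

theorem dv_uu (i : Fin 2) : dv (uu i) = WithZero.exp (1 : ℤ) := by
  unfold uu
  rw [dv_map _ (MvPolynomial.X_ne_zero i), MvPolynomial.totalDegree_X]
  simp

theorem dv_C (c : ℂ) (hc : c ≠ 0) : dv (algebraMap ℂ F c) = 1 := by
  rw [IsScalarTower.algebraMap_apply ℂ (MvPolynomial (Fin 2) ℂ) F, dv_map]
  · simp [MvPolynomial.algebraMap_eq]
  · simpa [MvPolynomial.algebraMap_eq] using hc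

theorem dv_C_le (c : ℂ) : dv (algebraMap ℂ F c) ≤ 1 := by
  by_cases hc : c = 0
  · simp [hc]
  · rw [dv_C c hc]

end Pool.Agent.Helper214.QTorus
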