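import Mathlib
import Pool.Agent.Helper214.Val

set_option autoImplicit false

namespace Pool.Agent.Helper214.QTorus

/-- the valuation on the copy of the function field -/
noncomputable def dvL (n : ℕ) : Valuation (L n) (WithZero (Multiplicative ℤ)) := dv

theorem dvL_aa (n : ℕ) (i : Fin 2) : dvL n (aa n i) = WithZero.exp (1 : ℤ) := dv_uu i

theorem dvL_C (n : ℕ) (c : ℂ) (hc : c ≠ 0) : dvL n (algebraMap ℂ (L n) c) = 1 := dv_C c hc

theorem dvL_C_le (n : ℕ) (c : ℂ) : dvL n (algebraMap ℂ (L n) c) ≤ 1 := dv_C_le c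

theorem unit_x_apply (n : ℕ) (ζ : ℂ) (hζ : ζ ≠ 0) (X : (Module.End (L n) (N n))ˣ)
    (hX : (X : Module.End (L n) (N n)) = opx n ζ) (i : ℤ) (w : N n) (k : ZMod n) :
    ((X ^ i : (Module.End (L n) (N n))ˣ) : Module.End (L n) (N n)) w k
      = (aa n 0 * algebraMap ℂ (L n) (chi ζ k)) ^ i * w k := by
  have hne : (aa n 0 * algebraMap ℂ (L n) (chi ζ k)) ≠ 0 := by
    apply mul_ne_zero (aa_ne n 0)
    rw [Ne, map_eq_zero]
    exact pow_ne_zero _ hζ
  rcases Int.eq_nat_or_neg i with ⟨m, rfl | rfl⟩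
  · rw [zpow_natCast, Units.val_pow_eq_pow_val, hX, opx_pow_apply, zpow_natCast]
  · rw [zpow_neg, zpow_natCast, zpow_neg, zpow_natCast]
    set w' := (((X ^ m)⁻¹ : (Module.End (L n) (N n))ˣ) : Module.End (L n) (N n)) w with hw'
    have h1 : ((X ^ m : (Module.End (L n) (N n))ˣ) : Module.End (L n) (N n)) w' = w := by
      rw [hw', ← Module.End.mul_apply, ← Units.val_mul, mul_inv_cancel]
      rfl
    rw [← h1, Units.val_pow_eq_pow_val, hX, opx_pow_apply]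
    field_simp

theorem unit_y_apply (n : ℕ) (Y : (Module.End (L n) (N n))ˣ)
    (hY : (Y : Module.End (L n) (N n)) = opy n) (j : ℤ) (w : N n) (k : ZMod n) :
    ((Y ^ j : (Module.End (L n) (N n))ˣ) : Module.End (L n) (N n)) w k
      = (aa n 1) ^ j * w (k - j) := by
  have hne := aa_ne n 1
  rcases Int.eq_nat_or_neg j with ⟨m, rfl | rfl⟩
  · rw [zpow_natCast, Units.val_pow_eq_pow_val, hY, opy_pow_apply, zpow_natCast]
    simp
  · rw [zpow_neg, zpow_natCast, zpow_neg, zpow_natCast]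
    set w' := (((Y ^ m)⁻¹ : (Module.End (L n) (N n))ˣ) : Module.End (L n) (N n)) w with hw'
    have h1 : ((Y ^ m : (Module.End (L n) (N n))ˣ) : Module.End (L n) (N n)) w' = w := by
      rw [hw', ← Module.End.mul_apply, ← Units.val_mul, mul_inv_cancel]
      rfl
    rw [← h1, Units.val_pow_eq_pow_val, hY, opy_pow_apply]
    simp only [Int.cast_neg, Int.cast_natCast, sub_neg_eq_add, add_sub_cancel_right]
    field_simp

theorem phi_mon_apply (n : ℕ) [NeZero n] (ζ : ℂ) (h : ζ ^ n = 1) (i j : ℤ) (w : N n)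
    (k : ZMod n) :
    phi n ζ h (mon (ug (NeZero.ne n) ζ 0) (ug (NeZero.ne n) ζ 1) i j) w k
      = (aa n 0 * algebraMap ℂ (L n) (chi ζ k)) ^ i * ((aa n 1) ^ j * w (k - j)) := by
  have hζ : ζ ≠ 0 := by
    rintro rfl
    rw [zero_pow (NeZero.ne n)] at h
    exact zero_ne_one h
  have e : phi n ζ h (mon (ug (NeZero.ne n) ζ 0) (ug (NeZero.ne n) ζ 1) i j) =
      (((Units.map (phi n ζ h).toRingHom.toMonoidHom (ug (NeZero.ne n) ζ 0)) ^ i *
        (Units.map (phi n ζ h).toRingHom.toMonoidHom (ug (NeZero.ne n) ζ 1)) ^ j :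
        (Module.End (L n) (N n))ˣ) : Module.End (L n) (N n)) := by
    rw [← map_zpow, ← map_zpow, ← map_mul]
    rfl
  rw [e, Units.val_mul, Module.End.mul_apply, unit_x_apply n ζ hζ, unit_y_apply]
  · exact phi_gen_one n ζ h
  · exact phi_gen_zero n ζ h

/-- the first of the two commuting elements -/
noncomputable def XX (n : ℕ) [NeZero n] (ζ : ℂ) : A n ζ :=
  Xel (mon (ug (NeZero.ne n) ζ 0) (ug (NeZero.ne n) ζ 1)) ζ⁻¹

theorem term_le (n : ℕ) {ζ : ℂ} (hζ : ζ ≠ 0) (c : ℂ) (i j : ℤ) (hij : i + j ≤ 1) (k : ZMod n)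
    (V : WithZero (Multiplicative ℤ)) (z : L n) (hz : dvL n z ≤ V) :
    dvL n (algebraMap ℂ (L n) c * ((aa n 0 * algebraMap ℂ (L n) (chi ζ k)) ^ i *
      ((aa n 1) ^ j * z))) ≤ WithZero.exp (1 : ℤ) * V := by
  have hchi : chi ζ k ≠ 0 := pow_ne_zero _ hζ
  rw [map_mul, map_mul, map_mul, map_zpow₀, map_zpow₀, map_mul, dvL_aa, dvL_aa, dvL_C n _ hchi,
    mul_one, ← WithZero.exp_zsmul, ← WithZero.exp_zsmul, ← mul_assoc (WithZero.exp _),
    ← WithZero.exp_add]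
  have h1 : WithZero.exp (i • (1 : ℤ) + j • (1 : ℤ)) ≤ WithZero.exp (1 : ℤ) := by
    rw [WithZero.exp_le_exp]; simpa using hij
  calc dvL n (algebraMap ℂ (L n) c) * (WithZero.exp (i • (1 : ℤ) + j • (1 : ℤ)) * dvL n z)
      ≤ 1 * (WithZero.exp (1 : ℤ) * V) :=
        mul_le_mul' (dvL_C_le n c) (mul_le_mul' h1 hz)
    _ = _ := one_mul _

theorem phi_XX_ne (n : ℕ) [NeZero n] (ζ : ℂ) (h : ζ ^ n = 1) (r : ℂ) (w : N n) (hw : w ≠ 0)
    (he : phi n ζ h (XX n ζ) w = algebraMap ℂ (L n) r • w) : False := by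
  have hζ : ζ ≠ 0 := by
    rintro rfl
    rw [zero_pow (NeZero.ne n)] at h
    exact zero_ne_one h
  obtain ⟨k0, hk0⟩ := Finite.exists_max (fun k : ZMod n => dvL n (w k))
  have hV : dvL n (w k0) ≠ 0 := by
    intro h0
    apply hw
    funext k
    have h1 := hk0 k
    rw [h0] at h1
    have h2 : dvL n (w k) = 0 := le_antisymm h1 zero_le'
    exact (map_eq_zero _).1 h2
  set V := dvL n (w k0) with hVdef
  have hsm : ∀ (c : ℂ) (a : A n ζ) (w : N n) (k : ZMod n),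
      phi n ζ h (c • a) w k = algebraMap ℂ (L n) c * phi n ζ h a w k := by
    intro c a w k
    rw [Algebra.smul_def, IsScalarTower.algebraMap_apply ℂ F (A n ζ), map_mul, AlgHom.commutes,
      Module.End.mul_apply, Module.algebraMap_end_apply, Pi.smul_apply, Algebra.smul_def,
      ← IsScalarTower.algebraMap_apply]
  have he2 := congrFun he (k0 + 2)
  unfold XX Xel at he2
  simp only [map_add, LinearMap.add_apply, Pi.add_apply, hsm, phi_mon_apply, Pi.smul_apply,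
    smul_eq_mul] at he2
  set G := fun (c : ℂ) (i j : ℤ) => algebraMap ℂ (L n) c *
    ((aa n 0 * algebraMap ℂ (L n) (chi ζ (k0 + 2))) ^ i * ((aa n 1) ^ j * w (k0 + 2 - j))) with hG
  have hGle : ∀ (c : ℂ) (i j : ℤ), i + j ≤ 1 → dvL n (G c i j) ≤ WithZero.exp (1 : ℤ) * V := by
    intro c i j hij
    exact term_le n hζ c i j hij _ V _ (hk0 _)
  have he3 : (aa n 1) ^ (2 : ℤ) * w k0 = G r 0 0 - (G 1 (-2) 0 + G (1 + (ζ⁻¹)⁻¹) (-1) 1 +
      G (1 + ζ⁻¹) 0 (-1) + G ((ζ⁻¹)⁻¹ + (ζ⁻¹) ^ 2) 1 0 + G ((ζ⁻¹)⁻¹) 2 (-2)) := by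
    have e1 : G 1 0 2 = (aa n 1) ^ (2 : ℤ) * w k0 := by
      simp only [hG, map_one, one_mul, zpow_zero]
      congr 2
      push_cast
      ring
    have e2 : G r 0 0 = algebraMap ℂ (L n) r * w (k0 + 2) := by
      simp [hG]
    rw [← e1, e2, ← he2]
    simp only [hG, map_one, one_mul, map_add, map_pow]
    ring
  have hlow : dvL n (G r 0 0 - (G 1 (-2) 0 + G (1 + (ζ⁻¹)⁻¹) (-1) 1 +
      G (1 + ζ⁻¹) 0 (-1) + G ((ζ⁻¹)⁻¹ + (ζ⁻¹) ^ 2) 1 0 + G ((ζ⁻¹)⁻¹) 2 (-2)))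
      ≤ WithZero.exp (1 : ℤ) * V := by
    apply (dvL n).map_sub_le (hGle _ _ _ (by norm_num))
    apply (dvL n).map_add_le _ (hGle _ _ _ (by norm_num))
    apply (dvL n).map_add_le _ (hGle _ _ _ (by norm_num))
    apply (dvL n).map_add_le _ (hGle _ _ _ (by norm_num))
    apply (dvL n).map_add_le (hGle _ _ _ (by norm_num)) (hGle _ _ _ (by norm_num))
  rw [← he3, map_mul, map_zpow₀, dvL_aa, ← WithZero.exp_zsmul] at hlow
  have hlow2 : WithZero.exp ((2 : ℤ) • (1 : ℤ)) ≤ WithZero.exp (1 : ℤ) :=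
    le_of_mul_le_mul_right hlow (zero_lt_iff.2 hV)
  rw [WithZero.exp_le_exp] at hlow2
  norm_num at hlow2

end Pool.Agent.Helper214.QTorus
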