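import Mathlib
import Pool.Agent.Helper214.UnitX
import Pool.Agent.Helper214.Sub
import Pool.Agent.Helper214.NonRat

set_option autoImplicit false

namespace Pool.Agent.Helper214.QTorus

open Polynomial

/-- the second of the two commuting elements -/
noncomputable def YY (n : ℕ) [NeZero n] (ζ : ℂ) : A n ζ :=
  Yel (mon (ug (NeZero.ne n) ζ 0) (ug (NeZero.ne n) ζ 1)) ζ⁻¹

/-- the constant of the curve -/
noncomputable def cc (ζ : ℂ) : ℂ := (1 - ζ⁻¹) ^ 6 / (4 * (ζ⁻¹) ^ 2)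

theorem mm (n : ℕ) [NeZero n] {ζ : ℂ} (hζ : ζ ≠ 0) (i j k l : ℤ) :
    (mon (ug (NeZero.ne n) ζ 0) (ug (NeZero.ne n) ζ 1) i j : A n ζ) *
      mon (ug (NeZero.ne n) ζ 0) (ug (NeZero.ne n) ζ 1) k l =
      ((ζ⁻¹) ^ (j * k)) • (mon (ug (NeZero.ne n) ζ 0) (ug (NeZero.ne n) ζ 1) (i + k) (j + l)
        : A n ζ) :=
  mon_mul _ _ _ (inv_ne_zero hζ) (ug_comm (NeZero.ne n) hζ) i j k l

theorem XY_eq (n : ℕ) [NeZero n] {ζ : ℂ} (hζ : ζ ≠ 0) :
    XX n ζ * YY n ζ = YY n ζ * XX n ζ :=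
  XY_comm _ _ (inv_ne_zero hζ) (mm n hζ)

theorem YY_sq (n : ℕ) [NeZero n] {ζ : ℂ} (hζ : ζ ≠ 0) :
    YY n ζ * YY n ζ = XX n ζ * XX n ζ * XX n ζ + algebraMap ℂ (A n ζ) (cc ζ) := by
  have := Y_sq (R := A n ζ) _ _ (inv_ne_zero hζ) (mm n hζ)
  rw [mon_zero] at this
  unfold XX YY
  rw [this, Algebra.algebraMap_eq_smul_one]
  rfl

theorem mul_XX_inj (n : ℕ) [NeZero n] (ζ : ℂ) (hp : IsPrimitiveRoot ζ n) (r : ℂ) (b : A n ζ)
    (hb : XX n ζ * b = algebraMap ℂ (A n ζ) r * b) : b = 0 := by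
  apply phi_injective n ζ hp
  rw [map_zero]
  apply LinearMap.ext
  intro w
  by_contra hne
  rw [LinearMap.zero_apply] at hne
  apply phi_XX_ne n ζ hp.pow_eq_one r _ hne
  have h1 := congrArg (fun T => phi n ζ hp.pow_eq_one T w) hb
  simp only [map_mul, Module.End.mul_apply] at h1
  rw [h1, IsScalarTower.algebraMap_apply ℂ F (A n ζ), AlgHom.commutes,
    Module.algebraMap_end_apply, IsScalarTower.algebraMap_apply ℂ F (L n)]
  funext k
  simp only [Pi.smul_apply, Algebra.smul_def, smul_eq_mul]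
  rfl

theorem cc_ne (n : ℕ) (hn : 2 ≤ n) (ζ : ℂ) (hp : IsPrimitiveRoot ζ n) : cc ζ ≠ 0 := by
  have hζ : ζ ≠ 0 := hp.ne_zero (by omega)
  have h1 : ζ ≠ 1 := hp.ne_one (by omega)
  unfold cc
  apply div_ne_zero
  · apply pow_ne_zero
    intro h
    apply h1
    have : ζ⁻¹ = 1 := (sub_eq_zero.1 h).symm
    exact inv_eq_one.1 this
  · apply mul_ne_zero (by norm_num)
    exact pow_ne_zero _ (inv_ne_zero hζ)

theorem main (n : ℕ) (hn : 2 ≤ n) (ζ : ℂ) (hp : IsPrimitiveRoot ζ n) :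
    ∃ (K : Type) (_ : Field K) (_ : Algebra ℂ K) (f : K →ₐ[ℂ] A n ζ), Function.Injective f ∧
      (∃ t : K, IsTranscendenceBasis ℂ (fun _ : Fin 1 => t)) ∧
      ¬ Nonempty (K ≃ₐ[ℂ] RatFunc ℂ) := by
  haveI : NeZero n := ⟨by omega⟩
  have hn0 : n ≠ 0 := NeZero.ne n
  have hζ : ζ ≠ 0 := hp.ne_zero hn0
  have hc := cc_ne n hn ζ hp
  have hirr : Fact (Irreducible (gg (cc ζ))) := ⟨gg_irreducible _ hc⟩
  haveI : Module.Finite F (A n ζ) := finite hn0 hζ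
  obtain ⟨f⟩ := exists_hom_general (F := F) (A := A n ζ) (XX n ζ) (YY n ζ) (XY_eq n hζ) (cc ζ)
    (YY_sq n hζ) (mul_XX_inj n ζ hp) (gg (cc ζ)) rfl
  have hnt : Nontrivial (A n ζ) := by
    refine ⟨0, 1, ?_⟩
    intro h
    have h1 := congrArg (phi n ζ hp.pow_eq_one) h
    rw [map_zero, map_one] at h1
    exact zero_ne_one h1
  refine ⟨AdjoinRoot (gg (cc ζ)), inferInstance, inferInstance, f, ?_, ⟨_, curve_basis (cc ζ) hirr⟩,
    not_rational (cc ζ) hc hirr⟩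
  exact f.toRingHom.injective

end Pool.Agent.Helper214.QTorus
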