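import Mathlib

/-! Combinatorial core: an inequality for elementary symmetric type sums. -/

namespace Pool.Agent.Helper214.PavCore

open Finset

variable {α : Type*} [DecidableEq α]

theorem card_fill {A T Q : Finset α} (hA : A ⊆ Q) (hQ : Q ⊆ T) :
    (A ∪ (T \ Q)).card + Q.card = A.card + T.card := by
  have h1 : Disjoint A (T \ Q) := Finset.disjoint_left.2 fun x hx hx' =>
    (Finset.mem_sdiff.1 hx').2 (hA hx)
  rw [Finset.card_union_of_disjoint h1, Finset.card_sdiff_of_subset hQ]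
  have := Finset.card_le_card hQ
  omega

theorem prod_fill (z : α → ℝ) {A T Q : Finset α} (hA : A ⊆ Q) (hQ : Q ⊆ T) :
    (∏ x ∈ A ∪ (T \ Q), z x) * ∏ x ∈ Q, z x = (∏ x ∈ A, z x) * ∏ x ∈ T, z x := by
  rw [← Finset.prod_union_inter]
  have h1 : (A ∪ (T \ Q)) ∪ Q = T := by
    ext x
    simp only [Finset.mem_union, Finset.mem_sdiff]
    constructor
    · rintro ((h | h) | h)
      · exact hQ (hA h)
      · exact h.1
      · exact hQ h
    · intro h
      by_cases hx : x ∈ Q
      · exact Or.inr hx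
      · exact Or.inl (Or.inr ⟨h, hx⟩)
  have h2 : (A ∪ (T \ Q)) ∩ Q = A := by
    ext x
    simp only [Finset.mem_union, Finset.mem_sdiff, Finset.mem_inter]
    constructor
    · rintro ⟨h | h, h'⟩
      · exact h
      · exact absurd h' h.2
    · intro h
      exact ⟨Or.inl h, hA h⟩
  rw [h1, h2, mul_comm]

theorem regroup (X : Finset α) (z : α → ℝ) (g : Finset α → Finset α → ℝ) :
    ∑ W ∈ X.powerset, ∑ Q ∈ X.powerset, g W Q * ((∏ x ∈ W, z x) * ∏ x ∈ Q, z x) =
      ∑ T ∈ X.powerset, ∑ A ∈ T.powerset,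
        (∑ Q ∈ Finset.Icc A T, g (A ∪ (T \ Q)) Q) * ((∏ x ∈ A, z x) * ∏ x ∈ T, z x) := by
  have h1 : ∑ T ∈ X.powerset, ∑ A ∈ T.powerset,
      (∑ Q ∈ Finset.Icc A T, g (A ∪ (T \ Q)) Q) * ((∏ x ∈ A, z x) * ∏ x ∈ T, z x) =
      ∑ T ∈ X.powerset, ∑ A ∈ T.powerset, ∑ Q ∈ Finset.Icc A T,
        g (A ∪ (T \ Q)) Q * ((∏ x ∈ A ∪ (T \ Q), z x) * ∏ x ∈ Q, z x) := by
    refine Finset.sum_congr rfl fun T _ => Finset.sum_congr rfl fun A _ => ?_
    rw [Finset.sum_mul]
    refine Finset.sum_congr rfl fun Q hQ => ?_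
    rw [Finset.mem_Icc] at hQ
    rw [prod_fill z hQ.1 hQ.2]
  rw [h1]
  simp_rw [Finset.sum_sigma']
  refine Finset.sum_bij' (fun p _ => ⟨p.1 ∪ p.2, ⟨p.1 ∩ p.2, p.2⟩⟩)
    (fun q _ => ⟨q.2.1 ∪ (q.1 \ q.2.2), q.2.2⟩) ?_ ?_ ?_ ?_ ?_
  · rintro ⟨W, Q⟩ h
    simp only [Finset.mem_sigma, Finset.mem_powerset, Finset.mem_Icc] at h ⊢
    exact ⟨Finset.union_subset h.1 h.2, Finset.inter_subset_left.trans Finset.subset_union_left,
      Finset.inter_subset_right, Finset.subset_union_right⟩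
  · rintro ⟨T, A, Q⟩ h
    simp only [Finset.mem_sigma, Finset.mem_powerset, Finset.mem_Icc] at h ⊢
    exact ⟨Finset.union_subset (h.2.1.trans h.1) (Finset.sdiff_subset.trans h.1),
      (h.2.2.2 : Q ⊆ T).trans h.1⟩
  · rintro ⟨W, Q⟩ h
    simp only [Sigma.mk.injEq, heq_eq_eq, and_true]
    ext x
    simp only [Finset.mem_union, Finset.mem_inter, Finset.mem_sdiff]
    tauto
  · rintro ⟨T, A, Q⟩ h
    simp only [Finset.mem_sigma, Finset.mem_powerset, Finset.mem_Icc] at h
    obtain ⟨hT, hA, hAQ, hQT⟩ := h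
    have hAQ' : A ⊆ Q := hAQ
    have hQT' : Q ⊆ T := hQT
    have e1 : A ∪ (T \ Q) ∪ Q = T := by
      ext x
      simp only [Finset.mem_union, Finset.mem_sdiff]
      constructor
      · rintro ((h | h) | h)
        · exact hQT' (hAQ' h)
        · exact h.1
        · exact hQT' h
      · intro h
        by_cases hx : x ∈ Q
        · exact Or.inr hx
        · exact Or.inl (Or.inr ⟨h, hx⟩)
    have e2 : (A ∪ (T \ Q)) ∩ Q = A := by
      ext x
      simp only [Finset.mem_union, Finset.mem_sdiff, Finset.mem_inter]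
      constructor
      · rintro ⟨h | h, h'⟩
        · exact h
        · exact absurd h' h.2
      · intro h
        exact ⟨Or.inl h, hAQ' h⟩
    simp only [e1, e2]
  · rintro ⟨W, Q⟩ h
    have e : (W ∩ Q) ∪ ((W ∪ Q) \ Q) = W := by
      ext x
      simp only [Finset.mem_union, Finset.mem_inter, Finset.mem_sdiff]
      tauto
    simp only [e]

open Classical in
theorem card_supersets_le {S : Finset (Finset α)} {Y T : Finset α} (hYT : Y ⊆ T)
    (hS : ∀ V ∈ S, V ⊆ T ∧ V.card = Y.card + 1) :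
    (S.filter fun V => Y ⊆ V).card ≤ T.card - Y.card := by
  have h1 : (S.filter fun V => Y ⊆ V) ⊆ (T \ Y).image fun x => insert x Y := by
    intro V hV
    rw [Finset.mem_filter] at hV
    obtain ⟨hVT, hc⟩ := hS V hV.1
    have h2 : (V \ Y).card = 1 := by
      rw [Finset.card_sdiff_of_subset hV.2]
      omega
    obtain ⟨x, hx⟩ := Finset.card_eq_one.1 h2
    have hxV : x ∈ V \ Y := by rw [hx]; exact Finset.mem_singleton_self x
    rw [Finset.mem_sdiff] at hxV
    rw [Finset.mem_image]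
    refine ⟨x, Finset.mem_sdiff.2 ⟨hVT hxV.1, hxV.2⟩, ?_⟩
    ext y
    rw [Finset.mem_insert]
    constructor
    · rintro (rfl | h)
      · exact hxV.1
      · exact hV.2 h
    · intro h
      by_cases hy : y ∈ Y
      · exact Or.inr hy
      · have : y ∈ V \ Y := Finset.mem_sdiff.2 ⟨h, hy⟩
        rw [hx, Finset.mem_singleton] at this
        exact Or.inl this
  calc (S.filter fun V => Y ⊆ V).card ≤ ((T \ Y).image fun x => insert x Y).card :=
        Finset.card_le_card h1
    _ ≤ (T \ Y).card := Finset.card_image_le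
    _ = T.card - Y.card := Finset.card_sdiff_of_subset hYT

open Classical in
theorem le_card_subsets {G : Finset (Finset α)} {V S : Finset α} (hSV : S ⊆ V)
    (hS : ∀ x ∈ S, V.erase x ∈ G) : S.card ≤ (G.filter fun Y => Y ⊆ V).card := by
  refine Finset.card_le_card_of_injOn (fun x => V.erase x) ?_ ?_
  · intro x hx
    rw [Finset.mem_coe] at hx ⊢
    exact Finset.mem_filter.2 ⟨hS x hx, Finset.erase_subset _ _⟩
  · intro x hx y hy hxy
    rw [Finset.mem_coe] at hx hy
    have h1 : V.erase x = V.erase y := hxy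
    by_contra hne
    have h2 : y ∈ V.erase x := Finset.mem_erase.2 ⟨fun h => hne h.symm, hSV hy⟩
    rw [h1] at h2
    exact absurd rfl (Finset.mem_erase.1 h2).1

section count

variable (r : ℕ) (b0 be bf bef : Finset α → Prop) (A T : Finset α)

open Classical in
theorem count_one (hr : A.card + T.card + 3 ≤ 2 * r)
    (h1e : ∀ V, V ⊆ T → V.card = r → b0 V → ∀ x ∈ V, ∀ y ∈ V, ¬ be (V.erase x) →
      ¬ be (V.erase y) → x = y)
    (h1f : ∀ V, V ⊆ T → V.card = r → b0 V → ∀ x ∈ V, ∀ y ∈ V, ¬ bf (V.erase x) →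
      ¬ bf (V.erase y) → x = y) :
    ((Finset.Icc A T).filter fun V => V.card = r ∧ b0 V).card ≤
      ((Finset.Icc A T).filter fun Y => Y.card + 1 = r ∧ be Y ∧ bf Y).card := by
  set VV := (Finset.Icc A T).filter fun V => V.card = r ∧ b0 V with hVV
  set G := (Finset.Icc A T).filter fun Y => Y.card + 1 = r ∧ be Y ∧ bf Y with hG
  rcases VV.eq_empty_or_nonempty with h0 | ⟨V0, hV0⟩
  · rw [h0]; simp
  have hV0' := hV0
  rw [hVV, Finset.mem_filter, Finset.mem_Icc] at hV0'
  have hrT : r ≤ T.card := by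
    rw [← hV0'.2.1]; exact Finset.card_le_card hV0'.1.2
  have key := Finset.card_mul_le_card_mul (s := VV) (t := G) (fun V Y => Y ⊆ V)
    (m := r - A.card - 2) (n := r - A.card - 2) ?_ ?_
  · have hpos : 0 < r - A.card - 2 := by omega
    exact Nat.le_of_mul_le_mul_right key hpos
  · intro V hV
    rw [hVV, Finset.mem_filter, Finset.mem_Icc] at hV
    obtain ⟨⟨hAV, hVT⟩, hVr, hVb⟩ := hV
    have hAV' : A ⊆ V := hAV
    have hVT' : V ⊆ T := hVT
    -- good elements
    let S := (V \ A).filter fun x => be (V.erase x) ∧ bf (V.erase x)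
    have hS1 : (V \ A).card ≤ S.card + 2 := by
      have hsub : V \ A ⊆ (S ∪ (V.filter fun x => ¬ be (V.erase x))) ∪
          (V.filter fun x => ¬ bf (V.erase x)) := by
        intro x hx
        have hxV := (Finset.mem_sdiff.1 hx).1
        by_cases h1 : be (V.erase x)
        · by_cases h2 : bf (V.erase x)
          · exact Finset.mem_union_left _ (Finset.mem_union_left _
              (Finset.mem_filter.2 ⟨hx, h1, h2⟩))
          · exact Finset.mem_union_right _ (Finset.mem_filter.2 ⟨hxV, h2⟩)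
        · exact Finset.mem_union_left _ (Finset.mem_union_right _
            (Finset.mem_filter.2 ⟨hxV, h1⟩))
      have c1 : (V.filter fun x => ¬ be (V.erase x)).card ≤ 1 := by
        rw [Finset.card_le_one]
        intro x hx y hy
        rw [Finset.mem_filter] at hx hy
        exact h1e V hVT' hVr hVb x hx.1 y hy.1 hx.2 hy.2
      have c2 : (V.filter fun x => ¬ bf (V.erase x)).card ≤ 1 := by
        rw [Finset.card_le_one]
        intro x hx y hy
        rw [Finset.mem_filter] at hx hy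
        exact h1f V hVT' hVr hVb x hx.1 y hy.1 hx.2 hy.2
      calc (V \ A).card ≤ _ := Finset.card_le_card hsub
        _ ≤ (S ∪ (V.filter fun x => ¬ be (V.erase x))).card +
            (V.filter fun x => ¬ bf (V.erase x)).card := Finset.card_union_le _ _
        _ ≤ (S.card + (V.filter fun x => ¬ be (V.erase x)).card) +
            (V.filter fun x => ¬ bf (V.erase x)).card :=
            Nat.add_le_add_right (Finset.card_union_le _ _) _
        _ ≤ S.card + 2 := by omega
    have hS2 : S.card ≤ (G.filter fun Y => Y ⊆ V).card := by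
      refine le_card_subsets (V := V) (fun x hx => ?_) (fun x hx => ?_)
      · exact (Finset.mem_sdiff.1 (Finset.mem_filter.1 hx).1).1
      · have hx' := Finset.mem_filter.1 hx
        have hxV := (Finset.mem_sdiff.1 hx'.1)
        rw [hG, Finset.mem_filter, Finset.mem_Icc]
        refine ⟨⟨?_, ?_⟩, ?_, hx'.2⟩
        · intro y hy
          exact Finset.mem_erase.2 ⟨fun h => hxV.2 (h ▸ hy), hAV' hy⟩
        · exact (Finset.erase_subset _ _).trans hVT'
        · rw [Finset.card_erase_of_mem hxV.1, hVr]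
          have : 0 < V.card := Finset.card_pos.2 ⟨x, hxV.1⟩
          omega
    have hS3 : (V \ A).card = r - A.card := by
      rw [Finset.card_sdiff_of_subset hAV', hVr]
    change r - A.card - 2 ≤ (G.filter fun Y => Y ⊆ V).card
    omega
  · intro Y hY
    rw [hG, Finset.mem_filter, Finset.mem_Icc] at hY
    obtain ⟨⟨hAY, hYT⟩, hYr, -⟩ := hY
    have h1 := card_supersets_le (S := VV) (Y := Y) (T := T) hYT (fun V hV => by
      rw [hVV, Finset.mem_filter, Finset.mem_Icc] at hV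
      exact ⟨hV.1.2, by omega⟩)
    change (VV.filter fun V => Y ⊆ V).card ≤ _
    omega

open Classical in
theorem count_two (hAT : A ⊆ T) (hr : A.card + T.card + 3 ≤ 2 * r)
    (h2 : ∀ Y, Y ⊆ T → Y.card + 1 = r → ¬ be Y → ¬ bf Y → ∀ y ∈ Y, ¬ bef (Y.erase y)) :
    ((Finset.Icc A T).filter fun Y => Y.card + 1 = r ∧ ¬ be Y ∧ ¬ bf Y).card ≤
      ((Finset.Icc A T).filter fun U => U.card + 2 = r ∧ ¬ bef U).card := by
  set NN := (Finset.Icc A T).filter fun Y => Y.card + 1 = r ∧ ¬ be Y ∧ ¬ bf Y with hNN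
  set UU := (Finset.Icc A T).filter fun U => U.card + 2 = r ∧ ¬ bef U with hUU
  have hAT' := Finset.card_le_card hAT
  have key := Finset.card_mul_le_card_mul (s := NN) (t := UU) (fun Y U => U ⊆ Y)
    (m := r - 1 - A.card) (n := r - 1 - A.card) ?_ ?_
  · have hpos : 0 < r - 1 - A.card := by omega
    exact Nat.le_of_mul_le_mul_right key hpos
  · intro Y hY
    rw [hNN, Finset.mem_filter, Finset.mem_Icc] at hY
    obtain ⟨⟨hAY, hYT⟩, hYr, hYe, hYf⟩ := hY
    have hAY' : A ⊆ Y := hAY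
    have hYT' : Y ⊆ T := hYT
    have hS2 : (Y \ A).card ≤ (UU.filter fun U => U ⊆ Y).card := by
      refine le_card_subsets (V := Y) Finset.sdiff_subset (fun x hx => ?_)
      have hxV := (Finset.mem_sdiff.1 hx)
      rw [hUU, Finset.mem_filter, Finset.mem_Icc]
      refine ⟨⟨?_, ?_⟩, ?_, h2 Y hYT' hYr hYe hYf x hxV.1⟩
      · intro y hy
        exact Finset.mem_erase.2 ⟨fun h => hxV.2 (h ▸ hy), hAY' hy⟩
      · exact (Finset.erase_subset _ _).trans hYT'
      · rw [Finset.card_erase_of_mem hxV.1]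
        have : 0 < Y.card := Finset.card_pos.2 ⟨x, hxV.1⟩
        omega
    have hS3 : (Y \ A).card = Y.card - A.card := Finset.card_sdiff_of_subset hAY'
    change r - 1 - A.card ≤ (UU.filter fun U => U ⊆ Y).card
    omega
  · intro U hU
    rw [hUU, Finset.mem_filter, Finset.mem_Icc] at hU
    obtain ⟨⟨hAU, hUT⟩, hUr, -⟩ := hU
    have h1 := card_supersets_le (S := NN) (Y := U) (T := T) hUT (fun V hV => by
      rw [hNN, Finset.mem_filter, Finset.mem_Icc] at hV
      exact ⟨hV.1.2, by omega⟩)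
    change (NN.filter fun V => U ⊆ V).card ≤ _
    omega

open Classical in
/-- the counting inequality for one fibre, in terms of indicator functions -/
theorem count_total (hAT : A ⊆ T) (hr : A.card + T.card + 3 ≤ 2 * r)
    (h1e : ∀ V, V ⊆ T → V.card = r → b0 V → ∀ x ∈ V, ∀ y ∈ V, ¬ be (V.erase x) →
      ¬ be (V.erase y) → x = y)
    (h1f : ∀ V, V ⊆ T → V.card = r → b0 V → ∀ x ∈ V, ∀ y ∈ V, ¬ bf (V.erase x) →
      ¬ bf (V.erase y) → x = y)
    (h2 : ∀ Y, Y ⊆ T → Y.card + 1 = r → ¬ be Y → ¬ bf Y → ∀ y ∈ Y, ¬ bef (Y.erase y)) :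
    0 ≤ ∑ Q ∈ Finset.Icc A T,
      ((if Q.card + 1 = r then (1 : ℝ) else 0) + (if Q.card + 2 = r ∧ ¬ bef Q then 1 else 0) -
        (if Q.card = r ∧ b0 Q then 1 else 0) - (if Q.card + 1 = r ∧ ¬ be Q then 1 else 0) -
        (if Q.card + 1 = r ∧ ¬ bf Q then 1 else 0)) := by
  have k1 := count_one r b0 be bf A T hr h1e h1f
  have k2 := count_two r be bf bef A T hAT hr h2
  have e : ∀ Q : Finset α,
      ((if Q.card + 1 = r then (1 : ℝ) else 0) + (if Q.card + 2 = r ∧ ¬ bef Q then 1 else 0) -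
        (if Q.card = r ∧ b0 Q then 1 else 0) - (if Q.card + 1 = r ∧ ¬ be Q then 1 else 0) -
        (if Q.card + 1 = r ∧ ¬ bf Q then 1 else 0)) =
      ((if Q.card + 1 = r ∧ be Q ∧ bf Q then (1 : ℝ) else 0) -
        (if Q.card = r ∧ b0 Q then 1 else 0)) +
      ((if Q.card + 2 = r ∧ ¬ bef Q then 1 else 0) -
        (if Q.card + 1 = r ∧ ¬ be Q ∧ ¬ bf Q then 1 else 0)) := by
    intro Q
    by_cases h1 : Q.card + 1 = r <;> by_cases h2 : be Q <;> by_cases h3 : bf Q <;>
      simp [h1, h2, h3] <;> ring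
  rw [Finset.sum_congr rfl fun Q _ => e Q, Finset.sum_add_distrib, Finset.sum_sub_distrib,
    Finset.sum_sub_distrib, Finset.sum_boole, Finset.sum_boole, Finset.sum_boole,
    Finset.sum_boole]
  have k1' : (((Finset.Icc A T).filter fun V => V.card = r ∧ b0 V).card : ℝ) ≤
      ((Finset.Icc A T).filter fun Y => Y.card + 1 = r ∧ be Y ∧ bf Y).card := by exact_mod_cast k1
  have k2' : (((Finset.Icc A T).filter fun Y => Y.card + 1 = r ∧ ¬ be Y ∧ ¬ bf Y).card : ℝ) ≤
      ((Finset.Icc A T).filter fun U => U.card + 2 = r ∧ ¬ bef U).card := by exact_mod_cast k2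
  linarith

end count

open Classical in
/-- weighted sum of the subsets of `X` with a property -/
noncomputable def SS (X : Finset α) (z : α → ℝ) (p : Finset α → Prop) : ℝ :=
  ∑ W ∈ X.powerset, if p W then ∏ x ∈ W, z x else 0

omit [DecidableEq α] in
theorem SS_nonneg {X : Finset α} {z : α → ℝ} (hz : ∀ x, 0 ≤ z x) (p : Finset α → Prop) :
    0 ≤ SS X z p := by
  refine Finset.sum_nonneg fun W _ => ?_
  split_ifs
  · exact Finset.prod_nonneg fun x _ => hz x
  · exact le_rfl

omit [DecidableEq α] in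
open Classical in
theorem SS_mul (X : Finset α) (z : α → ℝ) (p q : Finset α → Prop) :
    SS X z p * SS X z q = ∑ W ∈ X.powerset, ∑ Q ∈ X.powerset,
      ((if p W then (1 : ℝ) else 0) * (if q Q then 1 else 0)) *
        ((∏ x ∈ W, z x) * ∏ x ∈ Q, z x) := by
  unfold SS
  rw [Finset.sum_mul_sum]
  refine Finset.sum_congr rfl fun W _ => Finset.sum_congr rfl fun Q _ => ?_
  split_ifs <;> ring

open Classical in
theorem keyK (X : Finset α) (z : α → ℝ) (hz : ∀ x, 0 ≤ z x) (r : ℕ)
    (b0 be bf bef : Finset α → Prop)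
    (h1e : ∀ V, V ⊆ X → V.card = r → b0 V → ∀ x ∈ V, ∀ y ∈ V, ¬ be (V.erase x) →
      ¬ be (V.erase y) → x = y)
    (h1f : ∀ V, V ⊆ X → V.card = r → b0 V → ∀ x ∈ V, ∀ y ∈ V, ¬ bf (V.erase x) →
      ¬ bf (V.erase y) → x = y)
    (h2 : ∀ Y, Y ⊆ X → Y.card + 1 = r → ¬ be Y → ¬ bf Y → ∀ y ∈ Y, ¬ bef (Y.erase y)) :
    SS X z (fun W => W.card + 3 ≤ r) * SS X z (fun Q => Q.card = r ∧ b0 Q) +
      SS X z (fun W => W.card + 2 ≤ r) * SS X z (fun Q => Q.card + 1 = r ∧ ¬ be Q) +
      SS X z (fun W => W.card + 2 ≤ r) * SS X z (fun Q => Q.card + 1 = r ∧ ¬ bf Q) ≤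
    SS X z (fun W => W.card + 2 ≤ r) * SS X z (fun Q => Q.card + 1 = r) +
      SS X z (fun W => W.card + 1 ≤ r) * SS X z (fun Q => Q.card + 2 = r ∧ ¬ bef Q) := by
  rw [← sub_nonneg]
  have e : (SS X z (fun W => W.card + 2 ≤ r) * SS X z (fun Q => Q.card + 1 = r) +
      SS X z (fun W => W.card + 1 ≤ r) * SS X z (fun Q => Q.card + 2 = r ∧ ¬ bef Q)) -
      (SS X z (fun W => W.card + 3 ≤ r) * SS X z (fun Q => Q.card = r ∧ b0 Q) +
      SS X z (fun W => W.card + 2 ≤ r) * SS X z (fun Q => Q.card + 1 = r ∧ ¬ be Q) +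
      SS X z (fun W => W.card + 2 ≤ r) * SS X z (fun Q => Q.card + 1 = r ∧ ¬ bf Q)) =
      ∑ W ∈ X.powerset, ∑ Q ∈ X.powerset,
      ((if W.card + 2 ≤ r then (1 : ℝ) else 0) * (if Q.card + 1 = r then 1 else 0) +
        (if W.card + 1 ≤ r then (1 : ℝ) else 0) * (if Q.card + 2 = r ∧ ¬ bef Q then 1 else 0) -
        (if W.card + 3 ≤ r then (1 : ℝ) else 0) * (if Q.card = r ∧ b0 Q then 1 else 0) -
        (if W.card + 2 ≤ r then (1 : ℝ) else 0) * (if Q.card + 1 = r ∧ ¬ be Q then 1 else 0) -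
        (if W.card + 2 ≤ r then (1 : ℝ) else 0) *
          (if Q.card + 1 = r ∧ ¬ bf Q then 1 else 0)) *
        ((∏ x ∈ W, z x) * ∏ x ∈ Q, z x) := by
    simp only [SS_mul, ← Finset.sum_add_distrib, ← Finset.sum_sub_distrib]
    exact Finset.sum_congr rfl fun W _ => Finset.sum_congr rfl fun Q _ => by ring
  rw [e]
  rw [regroup X z (fun W Q =>
      ((if W.card + 2 ≤ r then (1 : ℝ) else 0) * (if Q.card + 1 = r then 1 else 0) +
        (if W.card + 1 ≤ r then (1 : ℝ) else 0) * (if Q.card + 2 = r ∧ ¬ bef Q then 1 else 0) -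
        (if W.card + 3 ≤ r then (1 : ℝ) else 0) * (if Q.card = r ∧ b0 Q then 1 else 0) -
        (if W.card + 2 ≤ r then (1 : ℝ) else 0) * (if Q.card + 1 = r ∧ ¬ be Q then 1 else 0) -
        (if W.card + 2 ≤ r then (1 : ℝ) else 0) *
          (if Q.card + 1 = r ∧ ¬ bf Q then 1 else 0)))]
  refine Finset.sum_nonneg fun T hT => Finset.sum_nonneg fun A hA => ?_
  rw [Finset.mem_powerset] at hT hA
  refine mul_nonneg ?_ (mul_nonneg (Finset.prod_nonneg fun x _ => hz x)
    (Finset.prod_nonneg fun x _ => hz x))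
  by_cases hr : A.card + T.card + 3 ≤ 2 * r
  · have h0 := count_total r b0 be bf bef A T hA hr
      (fun V hV => h1e V (hV.trans hT)) (fun V hV => h1f V (hV.trans hT))
      (fun Y hY => h2 Y (hY.trans hT))
    refine h0.trans_eq (Finset.sum_congr rfl fun Q hQ => ?_)
    rw [Finset.mem_Icc] at hQ
    have hc := card_fill hQ.1 hQ.2
    have i1 : ∀ P : Prop, (Q.card = r ∧ P → (A ∪ (T \ Q)).card + 3 ≤ r) := by
      rintro P ⟨h, -⟩; omega
    have i2 : Q.card + 1 = r → (A ∪ (T \ Q)).card + 2 ≤ r := by intro h; omega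
    have i3 : Q.card + 2 = r → (A ∪ (T \ Q)).card + 1 ≤ r := by intro h; omega
    by_cases q0 : Q.card = r
    · have q1 : ¬ Q.card + 1 = r := by omega
      have q2 : ¬ Q.card + 2 = r := by omega
      have w : (A ∪ (T \ Q)).card + 3 ≤ r := by omega
      simp [q0, w]
    · by_cases q1 : Q.card + 1 = r
      · have q2 : ¬ Q.card + 2 = r := by omega
        have w := i2 q1
        simp [q0, q1, q2, w]
      · by_cases q2 : Q.card + 2 = r
        · have w := i3 q2
          simp [q0, q1, q2, w]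
        · simp [q0, q1, q2]
  · refine (Finset.sum_eq_zero fun Q hQ => ?_).ge
    rw [Finset.mem_Icc] at hQ
    have hc := card_fill hQ.1 hQ.2
    by_cases q0 : Q.card = r
    · have q1 : ¬ Q.card + 1 = r := by omega
      have q2 : ¬ Q.card + 2 = r := by omega
      have w : ¬ (A ∪ (T \ Q)).card + 3 ≤ r := by omega
      simp [q0, w]
    · by_cases q1 : Q.card + 1 = r
      · have q2 : ¬ Q.card + 2 = r := by omega
        have w : ¬ (A ∪ (T \ Q)).card + 2 ≤ r := by omega
        simp [q0, q1, q2, w]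
      · by_cases q2 : Q.card + 2 = r
        · have w : ¬ (A ∪ (T \ Q)).card + 1 ≤ r := by omega
          simp [q0, q1, q2, w]
        · simp [q0, q1, q2]

end Pool.Agent.Helper214.PavCore
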