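import Mathlib
import Pool.Agent.Helper214.PavCore

/-! Matroids: paving Rayleigh matroids are independence-correlated. -/

namespace Pool.Agent.Helper214.PavMat

open Finset Pool.Agent.Helper214.PavCore

variable {α : Type*} [DecidableEq α] [Fintype α]

/-- `M` is paving: every set of fewer than `r` elements of the ground set is independent, where `r`
is the size of the bases. -/
def Paving (M : Matroid α) : Prop :=
  ∀ A B : Finset α, (A : Set α) ⊆ M.E → M.IsBase (B : Set α) → A.card < B.card →
    M.Indep (A : Set α)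

theorem exists_base (M : Matroid α) : ∃ B : Finset α, M.IsBase (B : Set α) := by
  classical
  obtain ⟨B, hB⟩ := M.exists_isBase
  exact ⟨(Set.toFinite B).toFinset, by rw [Set.Finite.coe_toFinset]; exact hB⟩

theorem base_card {M : Matroid α} {B B' : Finset α} (hB : M.IsBase (B : Set α))
    (hB' : M.IsBase (B' : Set α)) : B.card = B'.card := by
  have h := hB.encard_eq_encard_of_isBase hB'
  rw [Set.encard_coe_eq_coe_finsetCard, Set.encard_coe_eq_coe_finsetCard] at h
  exact_mod_cast h

theorem indep_card_le {M : Matroid α} {A B : Finset α} (hA : M.Indep (A : Set α))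
    (hB : M.IsBase (B : Set α)) : A.card ≤ B.card := by
  classical
  obtain ⟨B', hB', hAB⟩ := hA.exists_isBase_superset
  have h1 : M.IsBase (((Set.toFinite B').toFinset : Finset α) : Set α) := by
    rw [Set.Finite.coe_toFinset]; exact hB'
  rw [← base_card h1 hB]
  refine Finset.card_le_card fun x hx => ?_
  rw [Set.Finite.mem_toFinset]
  exact hAB (by simpa using hx)

theorem indep_base {M : Matroid α} {A B : Finset α} (hA : M.Indep (A : Set α))
    (hB : M.IsBase (B : Set α)) (h : A.card = B.card) : M.IsBase (A : Set α) := by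
  classical
  obtain ⟨B', hB', hAB⟩ := hA.exists_isBase_superset
  have h1 : M.IsBase (((Set.toFinite B').toFinset : Finset α) : Set α) := by
    rw [Set.Finite.coe_toFinset]; exact hB'
  have h2 : A = (Set.toFinite B').toFinset := by
    refine Finset.eq_of_subset_of_card_le (fun x hx => ?_) ?_
    · rw [Set.Finite.mem_toFinset]
      exact hAB (by simpa using hx)
    · rw [h, base_card h1 hB]
  rw [h2]
  exact h1

theorem indep_iff {M : Matroid α} (hM : Paving M) {A B : Finset α} (hB : M.IsBase (B : Set α))
    (hA : (A : Set α) ⊆ M.E) :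
    M.Indep (A : Set α) ↔ (A.card + 1 ≤ B.card ∨ (A.card = B.card ∧ M.IsBase (A : Set α))) := by
  constructor
  · intro h
    rcases (indep_card_le h hB).lt_or_eq with h1 | h1
    · exact Or.inl h1
    · exact Or.inr ⟨h1, indep_base h hB h1⟩
  · rintro (h | ⟨-, h⟩)
    · exact hM A B hA hB h
    · exact h.indep

/-- `(H1)` -/
theorem fact_one {M : Matroid α} (hM : Paving M) {V : Finset α} (hV : M.IsBase (V : Set α))
    {e : α} (he : e ∈ M.E) (heV : e ∉ V) {x y : α} (hx : x ∈ V) (hy : y ∈ V)
    (hbx : ¬ M.IsBase ((insert e (V.erase x) : Finset α) : Set α))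
    (hby : ¬ M.IsBase ((insert e (V.erase y) : Finset α) : Set α)) : x = y := by
  classical
  by_contra hne
  have heV' : e ∉ (V : Set α) := by simpa using heV
  have hC := hV.fundCircuit_isCircuit he heV'
  have hecl : e ∈ M.closure (V : Set α) := by rwa [hV.closure_eq]
  have notmem : ∀ x ∈ V, ¬ M.IsBase ((insert e (V.erase x) : Finset α) : Set α) →
      x ∉ M.fundCircuit e (V : Set α) := by
    intro x hx hb hxC
    rw [hV.indep.mem_fundCircuit_iff hecl heV'] at hxC
    apply hb
    have hxe : x ≠ e := fun h => heV (h ▸ hx)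
    have e1 : ((insert e (V.erase x) : Finset α) : Set α) = insert e (V : Set α) \ {x} := by
      ext y
      simp only [Finset.coe_insert, Finset.coe_erase, Set.mem_insert_iff, Set.mem_sdiff,
        Set.mem_singleton_iff]
      constructor
      · rintro (rfl | ⟨h1, h2⟩)
        · exact ⟨Or.inl rfl, fun h => hxe h.symm⟩
        · exact ⟨Or.inr h1, h2⟩
      · rintro ⟨rfl | h1, h2⟩
        · exact Or.inl rfl
        · exact Or.inr ⟨h1, h2⟩
    rw [← e1] at hxC
    refine indep_base hxC hV ?_
    rw [Finset.card_insert_of_notMem (fun h => heV (Finset.mem_of_mem_erase h)),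
      Finset.card_erase_of_mem hx]
    have : 0 < V.card := Finset.card_pos.2 ⟨x, hx⟩
    omega
  have hxC := notmem x hx hbx
  have hyC := notmem y hy hby
  let W : Finset α := insert e ((V.erase x).erase y)
  have hsub : M.fundCircuit e (V : Set α) ⊆ (W : Set α) := by
    intro w hw
    have h1 := M.fundCircuit_subset_insert e (V : Set α) hw
    have hwx : w ≠ x := fun h => hxC (h ▸ hw)
    have hwy : w ≠ y := fun h => hyC (h ▸ hw)
    rcases h1 with h1 | h1
    · rw [h1]; simp [W]
    · have h1' : w ∈ V := by simpa using h1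
      simp [W, h1', hwx, hwy]
  have hWE : (W : Set α) ⊆ M.E := by
    intro w hw
    have hw' : w = e ∨ ((w ∈ V ∧ w ≠ x) ∧ w ≠ y) := by simpa [W] using hw
    rcases hw' with rfl | h
    · exact he
    · exact hV.subset_ground (by simpa using h.1.1)
  have hyVx : y ∈ V.erase x := Finset.mem_erase.2 ⟨fun h => hne h.symm, hy⟩
  have hWc : W.card < V.card := by
    have h1 : W.card ≤ ((V.erase x).erase y).card + 1 := Finset.card_insert_le _ _
    rw [Finset.card_erase_of_mem hyVx, Finset.card_erase_of_mem hx] at h1
    have h2 : 0 < (V.erase x).card := Finset.card_pos.2 ⟨y, hyVx⟩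
    rw [Finset.card_erase_of_mem hx] at h2
    omega
  have hW := hM W V hWE hV hWc
  exact hC.dep.not_indep (hW.subset hsub)

/-- `(H2)` -/
theorem fact_two {M : Matroid α} (hM : Paving M) {Y B : Finset α} (hB : M.IsBase (B : Set α))
    (hYE : (Y : Set α) ⊆ M.E) (hY : Y.card + 1 = B.card) {e f : α} (he : e ∈ M.E) (hf : f ∈ M.E)
    (heY : e ∉ Y) (hfY : f ∉ Y)
    (hbe : ¬ M.IsBase ((insert e Y : Finset α) : Set α))
    (hbf : ¬ M.IsBase ((insert f Y : Finset α) : Set α)) (y : α) :
    ¬ M.IsBase ((insert e (insert f (Y.erase y)) : Finset α) : Set α) := by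
  classical
  intro hb
  have hYi : M.Indep (Y : Set α) := hM Y B hYE hB (by omega)
  have mem : ∀ g : α, g ∈ M.E → g ∉ Y → ¬ M.IsBase ((insert g Y : Finset α) : Set α) →
      g ∈ M.closure (Y : Set α) := by
    intro g hg hgY hgb
    by_contra hcl
    rw [hYi.notMem_closure_iff hg] at hcl
    apply hgb
    have h1 : M.Indep ((insert g Y : Finset α) : Set α) := by
      rw [Finset.coe_insert]; exact hcl.1
    refine indep_base h1 hB ?_
    rw [Finset.card_insert_of_notMem hgY, hY]
  have h1 : ((insert e (insert f (Y.erase y)) : Finset α) : Set α) ⊆ M.closure (Y : Set α) := by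
    intro w hw
    have hw' : w = e ∨ w = f ∨ (w ∈ Y ∧ w ≠ y) := by simpa using hw
    rcases hw' with rfl | rfl | h
    · exact mem _ he heY hbe
    · exact mem _ hf hfY hbf
    · exact M.subset_closure (Y : Set α) hYE (by simpa using h.1)
  have h2 : M.closure ((insert e (insert f (Y.erase y)) : Finset α) : Set α) ⊆
      M.closure (Y : Set α) := M.closure_subset_closure_of_subset_closure h1
  rw [hb.closure_eq] at h2
  have h3 : M.IsBase (Y : Set α) := hYi.isBase_iff_ground_subset_closure.2 h2
  have := base_card h3 hB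
  omega

end Pool.Agent.Helper214.PavMat
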