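import Mathlib
import Pool.Agent.Helper214.PavMat

namespace Pool.Agent.Helper214.PavMain

open Finset Pool.Agent.Helper214.PavCore Pool.Agent.Helper214.PavMat

variable {α : Type*} [DecidableEq α] [Fintype α]

open Classical in
/-- the weighted negative correlation inequality for the family of sets `P` -/
def NegCorr (P : Finset α → Prop) : Prop :=
  ∀ z : α → ℝ, (∀ x, 0 < z x) → ∀ e f : α, e ≠ f →
    (∑ A : Finset α, if P A ∧ e ∈ A ∧ f ∈ A then ∏ x ∈ A, z x else 0) *
      (∑ A : Finset α, if P A then ∏ x ∈ A, z x else 0) ≤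
    (∑ A : Finset α, if P A ∧ e ∈ A then ∏ x ∈ A, z x else 0) *
      (∑ A : Finset α, if P A ∧ f ∈ A then ∏ x ∈ A, z x else 0)

theorem sum_split (e f : α) (h : e ≠ f) (F : Finset α → ℝ) :
    ∑ A : Finset α, F A = ∑ A ∈ ((univ.erase e).erase f).powerset,
      (F A + F (insert f A) + F (insert e A) + F (insert e (insert f A))) := by
  have h1 : (univ : Finset α) = insert e (univ.erase e) := by
    rw [Finset.insert_erase (Finset.mem_univ e)]
  have h2 : (univ.erase e : Finset α) = insert f ((univ.erase e).erase f) := by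
    rw [Finset.insert_erase (Finset.mem_erase.2 ⟨h.symm, Finset.mem_univ f⟩)]
  have h3 : e ∉ (univ.erase e : Finset α) := Finset.notMem_erase e _
  have h4 : f ∉ ((univ.erase e).erase f : Finset α) := Finset.notMem_erase f _
  have h5 : ∑ A : Finset α, F A = ∑ A ∈ (univ : Finset α).powerset, F A := by
    rw [Finset.powerset_univ]
  rw [h5]
  conv_lhs => rw [h1, Finset.sum_powerset_insert h3, h2, Finset.sum_powerset_insert h4,
    Finset.sum_powerset_insert h4]
  simp only [Finset.sum_add_distrib]
  ring

open Classical in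
theorem neg_at (P : Finset α → Prop) (z : α → ℝ) (e f : α) (h : e ≠ f) :
    (∑ A : Finset α, if P A ∧ e ∈ A ∧ f ∈ A then ∏ x ∈ A, z x else 0) =
        z e * z f * SS ((univ.erase e).erase f) z (fun A => P (insert e (insert f A))) ∧
    (∑ A : Finset α, if P A then ∏ x ∈ A, z x else 0) =
        SS ((univ.erase e).erase f) z P +
        z f * SS ((univ.erase e).erase f) z (fun A => P (insert f A)) +
        z e * SS ((univ.erase e).erase f) z (fun A => P (insert e A)) +
        z e * z f * SS ((univ.erase e).erase f) z (fun A => P (insert e (insert f A))) ∧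
    (∑ A : Finset α, if P A ∧ e ∈ A then ∏ x ∈ A, z x else 0) =
        z e * SS ((univ.erase e).erase f) z (fun A => P (insert e A)) +
        z e * z f * SS ((univ.erase e).erase f) z (fun A => P (insert e (insert f A))) ∧
    (∑ A : Finset α, if P A ∧ f ∈ A then ∏ x ∈ A, z x else 0) =
        z f * SS ((univ.erase e).erase f) z (fun A => P (insert f A)) +
        z e * z f * SS ((univ.erase e).erase f) z (fun A => P (insert e (insert f A))) := by
  have hmem : ∀ A ∈ ((univ.erase e).erase f : Finset α).powerset, e ∉ A ∧ f ∉ A ∧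
      (∏ x ∈ insert f A, z x) = z f * ∏ x ∈ A, z x ∧
      (∏ x ∈ insert e A, z x) = z e * ∏ x ∈ A, z x ∧
      (∏ x ∈ insert e (insert f A), z x) = z e * (z f * ∏ x ∈ A, z x) := by
    intro A hA
    rw [Finset.mem_powerset] at hA
    have he : e ∉ A := fun hh => by simpa using hA hh
    have hf : f ∉ A := fun hh => by simpa using hA hh
    have he' : e ∉ insert f A := by
      rw [Finset.mem_insert]; rintro (hh | hh)
      · exact h hh
      · exact he hh
    refine ⟨he, hf, Finset.prod_insert hf, Finset.prod_insert he, ?_⟩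
    rw [Finset.prod_insert he', Finset.prod_insert hf]
  refine ⟨?_, ?_, ?_, ?_⟩
  all_goals
    rw [sum_split e f h]
    unfold SS
    simp only [Finset.mul_sum, ← Finset.sum_add_distrib]
    refine Finset.sum_congr rfl fun A hA => ?_
    obtain ⟨he, hf, p1, p2, p3⟩ := hmem A hA
    simp only [p1, p2, p3, he, hf, h, h.symm, Finset.mem_insert, true_or, or_true, or_false,
      false_or, and_true, and_false, if_false, mul_ite, mul_zero, zero_add, add_zero,
      or_self, false_and]
    split_ifs <;> ring

/-- reduced form of the inequality -/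
theorem negCorr_iff (P : Finset α → Prop) :
    NegCorr P ↔ ∀ z : α → ℝ, (∀ x, 0 < z x) → ∀ e f : α, e ≠ f →
      SS ((univ.erase e).erase f) z (fun A => P (insert e (insert f A))) *
        SS ((univ.erase e).erase f) z P ≤
      SS ((univ.erase e).erase f) z (fun A => P (insert e A)) *
        SS ((univ.erase e).erase f) z (fun A => P (insert f A)) := by
  unfold NegCorr
  refine forall_congr' fun z => forall_congr' fun hz => forall_congr' fun e =>
    forall_congr' fun f => forall_congr' fun h => ?_
  obtain ⟨h1, h2, h3, h4⟩ := neg_at P z e f h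
  rw [h1, h2, h3, h4]
  have hpos : 0 < z e * z f := mul_pos (hz e) (hz f)
  set a := SS ((univ.erase e).erase f) z (fun A => P (insert e (insert f A)))
  set b := SS ((univ.erase e).erase f) z P
  set c := SS ((univ.erase e).erase f) z (fun A => P (insert e A))
  set d := SS ((univ.erase e).erase f) z (fun A => P (insert f A))
  have e1 : (z e * c + z e * z f * a) * (z f * d + z e * z f * a) -
      z e * z f * a * (b + z f * d + z e * c + z e * z f * a) = z e * z f * (c * d - a * b) := by
    ring
  constructor
  · intro hle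
    have : 0 ≤ z e * z f * (c * d - a * b) := by rw [← e1]; linarith
    have := nonneg_of_mul_nonneg_right this hpos
    linarith
  · intro hle
    have : 0 ≤ z e * z f * (c * d - a * b) := mul_nonneg hpos.le (by linarith)
    rw [← e1] at this
    linarith

section SSlemmas

variable {X X' : Finset α} {z : α → ℝ}

omit [Fintype α] [DecidableEq α] in
theorem SS_congr {p q : Finset α → Prop} (h : ∀ A ⊆ X, (p A ↔ q A)) : SS X z p = SS X z q := by
  unfold SS
  refine Finset.sum_congr rfl fun A hA => ?_
  rw [Finset.mem_powerset] at hA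
  by_cases hp : p A
  · rw [if_pos hp, if_pos ((h A hA).1 hp)]
  · rw [if_neg hp, if_neg fun hq => hp ((h A hA).2 hq)]

omit [Fintype α] [DecidableEq α] in
theorem SS_or {p q s : Finset α → Prop} (h : ∀ A ⊆ X, (p A ↔ (q A ∨ s A)))
    (h' : ∀ A ⊆ X, ¬ (q A ∧ s A)) : SS X z p = SS X z q + SS X z s := by
  unfold SS
  rw [← Finset.sum_add_distrib]
  refine Finset.sum_congr rfl fun A hA => ?_
  rw [Finset.mem_powerset] at hA
  have h1 := h A hA
  have h2 := h' A hA
  by_cases hq : q A
  · have hs : ¬ s A := fun hs => h2 ⟨hq, hs⟩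
    rw [if_pos (h1.2 (Or.inl hq)), if_pos hq, if_neg hs, add_zero]
  · by_cases hs : s A
    · rw [if_pos (h1.2 (Or.inr hs)), if_neg hq, if_pos hs, zero_add]
    · rw [if_neg, if_neg hq, if_neg hs, add_zero]
      intro hp
      rcases h1.1 hp with h3 | h3
      · exact hq h3
      · exact hs h3

omit [Fintype α] in
theorem SS_restrict {p : Finset α → Prop} (hX : X' ⊆ X) (hp : ∀ A ⊆ X, p A → A ⊆ X') :
    SS X z p = SS X' z p := by
  unfold SS
  symm
  refine Finset.sum_subset (Finset.powerset_mono.2 hX) fun A hA hA' => ?_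
  rw [Finset.mem_powerset] at hA hA'
  rw [if_neg fun h => hA' (hp A hA h)]

omit [Fintype α] [DecidableEq α] in
theorem SS_zero {p : Finset α → Prop} (hp : ∀ A ⊆ X, ¬ p A) : SS X z p = 0 := by
  unfold SS
  refine Finset.sum_eq_zero fun A hA => ?_
  rw [Finset.mem_powerset] at hA
  rw [if_neg (hp A hA)]

end SSlemmas

open Classical in
theorem paving_indep {M : Matroid α} (hM : Paving M)
    (hR : NegCorr fun A : Finset α => M.IsBase (A : Set α)) :
    NegCorr fun A : Finset α => M.Indep (A : Set α) := by
  rw [negCorr_iff] at hR ⊢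
  intro z hz e f hef
  have hR' := hR z hz e f hef
  have hz' : ∀ x, 0 ≤ z x := fun x => (hz x).le
  set X := ((univ.erase e).erase f : Finset α) with hX
  by_cases he : e ∈ M.E
  swap
  · rw [SS_zero (p := fun A : Finset α => M.Indep ((insert e (insert f A) : Finset α) : Set α)),
      zero_mul]
    · exact mul_nonneg (SS_nonneg hz' _) (SS_nonneg hz' _)
    · intro A _ h
      exact he (h.subset_ground (by simp))
  by_cases hf : f ∈ M.E
  swap
  · rw [SS_zero (p := fun A : Finset α => M.Indep ((insert e (insert f A) : Finset α) : Set α)),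
      zero_mul]
    · exact mul_nonneg (SS_nonneg hz' _) (SS_nonneg hz' _)
    · intro A _ h
      exact hf (h.subset_ground (by simp))
  obtain ⟨B, hB⟩ := exists_base M
  set r := B.card with hr
  set X' := X.filter (fun x => x ∈ M.E) with hX'
  have hXX : X' ⊆ X := Finset.filter_subset _ _
  have hsub : ∀ A : Finset α, A ⊆ X → ∀ C : Finset α, A ⊆ C → (C : Set α) ⊆ M.E → A ⊆ X' := by
    intro A hA C hAC hC x hx
    exact Finset.mem_filter.2 ⟨hA hx, hC (by simpa using hAC hx)⟩
  -- restriction to `X'`
  have ri : ∀ g : Finset α → Finset α, (∀ A, A ⊆ g A) →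
      SS X z (fun A => M.Indep (g A : Set α)) = SS X' z (fun A => M.Indep (g A : Set α)) :=
    fun g hg => SS_restrict hXX fun A hA h => hsub A hA (g A) (hg A) h.subset_ground
  have rb : ∀ g : Finset α → Finset α, (∀ A, A ⊆ g A) →
      SS X z (fun A => M.IsBase (g A : Set α)) = SS X' z (fun A => M.IsBase (g A : Set α)) :=
    fun g hg => SS_restrict hXX fun A hA h => hsub A hA (g A) (hg A) h.subset_ground
  have s0 : ∀ A : Finset α, A ⊆ A := fun A => Finset.Subset.refl A
  have s1 : ∀ g : α, ∀ A : Finset α, A ⊆ insert g A := fun g A => Finset.subset_insert g A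
  have s2 : ∀ A : Finset α, A ⊆ insert e (insert f A) := fun A =>
    (Finset.subset_insert f A).trans (Finset.subset_insert e _)
  rw [ri (fun A => insert e (insert f A)) s2, ri (fun A => A) s0, ri (fun A => insert e A) (s1 e),
    ri (fun A => insert f A) (s1 f)]
  rw [rb (fun A => insert e (insert f A)) s2, rb (fun A => A) s0, rb (fun A => insert e A) (s1 e),
    rb (fun A => insert f A) (s1 f)] at hR'
  -- facts on subsets of `X'`
  have hXm : ∀ A ⊆ X', e ∉ A ∧ f ∉ A ∧ (A : Set α) ⊆ M.E := by
    intro A hA
    refine ⟨fun h => ?_, fun h => ?_, fun x hx => ?_⟩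
    · have := Finset.mem_filter.1 (hA h)
      simp [hX] at this
    · have := Finset.mem_filter.1 (hA h)
      simp [hX] at this
    · exact (Finset.mem_filter.1 (hA (by simpa using hx))).2
  have cef : ∀ A ⊆ X', (insert e (insert f A)).card = A.card + 2 := by
    intro A hA
    obtain ⟨h1, h2, -⟩ := hXm A hA
    rw [Finset.card_insert_of_notMem, Finset.card_insert_of_notMem h2]
    rw [Finset.mem_insert]; rintro (h | h)
    · exact hef h
    · exact h1 h
  have ce : ∀ A ⊆ X', (insert e A).card = A.card + 1 := fun A hA =>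
    Finset.card_insert_of_notMem (hXm A hA).1
  have cf : ∀ A ⊆ X', (insert f A).card = A.card + 1 := fun A hA =>
    Finset.card_insert_of_notMem (hXm A hA).2.1
  have sub1 : ∀ A ⊆ X', ∀ g ∈ M.E, ((insert g A : Finset α) : Set α) ⊆ M.E := by
    intro A hA g hg
    rw [Finset.coe_insert]
    exact Set.insert_subset hg (hXm A hA).2.2
  have sub2 : ∀ A ⊆ X', ((insert e (insert f A) : Finset α) : Set α) ⊆ M.E := by
    intro A hA
    rw [Finset.coe_insert]
    exact Set.insert_subset he (sub1 A hA f hf)
  -- independent sums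
  have Ief : SS X' z (fun A => M.Indep ((insert e (insert f A) : Finset α) : Set α)) =
      SS X' z (fun A => A.card + 3 ≤ r) +
      SS X' z (fun A => A.card + 2 = r ∧ M.IsBase ((insert e (insert f A) : Finset α) : Set α)) := by
    refine SS_or (fun A hA => ?_) (fun A hA => by omega)
    rw [indep_iff hM hB (sub2 A hA), cef A hA]
  have Ie : SS X' z (fun A => M.Indep ((insert e A : Finset α) : Set α)) =
      SS X' z (fun A => A.card + 2 ≤ r) +
      SS X' z (fun A => A.card + 1 = r ∧ M.IsBase ((insert e A : Finset α) : Set α)) := by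
    refine SS_or (fun A hA => ?_) (fun A hA => by omega)
    rw [indep_iff hM hB (sub1 A hA e he), ce A hA]
  have If : SS X' z (fun A => M.Indep ((insert f A : Finset α) : Set α)) =
      SS X' z (fun A => A.card + 2 ≤ r) +
      SS X' z (fun A => A.card + 1 = r ∧ M.IsBase ((insert f A : Finset α) : Set α)) := by
    refine SS_or (fun A hA => ?_) (fun A hA => by omega)
    rw [indep_iff hM hB (sub1 A hA f hf), cf A hA]
  have I0 : SS X' z (fun A => M.Indep (A : Set α)) =
      SS X' z (fun A => A.card + 1 ≤ r) +
      SS X' z (fun A => A.card = r ∧ M.IsBase (A : Set α)) := by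
    refine SS_or (fun A hA => ?_) (fun A hA => by omega)
    rw [indep_iff hM hB (hXm A hA).2.2]
  -- base sums
  have Bef : SS X' z (fun A => M.IsBase ((insert e (insert f A) : Finset α) : Set α)) =
      SS X' z (fun A => A.card + 2 = r ∧
        M.IsBase ((insert e (insert f A) : Finset α) : Set α)) := by
    refine SS_congr fun A hA => ⟨fun h => ⟨?_, h⟩, fun h => h.2⟩
    rw [← cef A hA]; exact base_card h hB
  have Be : SS X' z (fun A => M.IsBase ((insert e A : Finset α) : Set α)) =
      SS X' z (fun A => A.card + 1 = r ∧ M.IsBase ((insert e A : Finset α) : Set α)) := by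
    refine SS_congr fun A hA => ⟨fun h => ⟨?_, h⟩, fun h => h.2⟩
    rw [← ce A hA]; exact base_card h hB
  have Bf : SS X' z (fun A => M.IsBase ((insert f A : Finset α) : Set α)) =
      SS X' z (fun A => A.card + 1 = r ∧ M.IsBase ((insert f A : Finset α) : Set α)) := by
    refine SS_congr fun A hA => ⟨fun h => ⟨?_, h⟩, fun h => h.2⟩
    rw [← cf A hA]; exact base_card h hB
  have B0 : SS X' z (fun A => M.IsBase (A : Set α)) =
      SS X' z (fun A => A.card = r ∧ M.IsBase (A : Set α)) :=
    SS_congr fun A hA => ⟨fun h => ⟨base_card h hB, h⟩, fun h => h.2⟩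
  rw [Bef, Be, Bf, B0] at hR'
  rw [Ief, Ie, If, I0]
  -- splitting of the elementary sums
  have t1 : SS X' z (fun A => A.card + 1 ≤ r) =
      SS X' z (fun A => A.card + 2 ≤ r) + SS X' z (fun A => A.card + 1 = r) :=
    SS_or (fun A _ => by omega) (fun A _ => by omega)
  have t2 : SS X' z (fun A => A.card + 2 ≤ r) =
      SS X' z (fun A => A.card + 3 ≤ r) + SS X' z (fun A => A.card + 2 = r) :=
    SS_or (fun A _ => by omega) (fun A _ => by omega)
  have t3 : SS X' z (fun A => A.card + 2 = r) =
      SS X' z (fun A => A.card + 2 = r ∧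
        M.IsBase ((insert e (insert f A) : Finset α) : Set α)) +
      SS X' z (fun A => A.card + 2 = r ∧
        ¬ M.IsBase ((insert e (insert f A) : Finset α) : Set α)) :=
    SS_or (fun A _ => by tauto) (fun A _ => by tauto)
  have t4 : SS X' z (fun A => A.card + 1 = r) =
      SS X' z (fun A => A.card + 1 = r ∧ M.IsBase ((insert e A : Finset α) : Set α)) +
      SS X' z (fun A => A.card + 1 = r ∧ ¬ M.IsBase ((insert e A : Finset α) : Set α)) :=
    SS_or (fun A _ => by tauto) (fun A _ => by tauto)
  have t5 : SS X' z (fun A => A.card + 1 = r) =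
      SS X' z (fun A => A.card + 1 = r ∧ M.IsBase ((insert f A : Finset α) : Set α)) +
      SS X' z (fun A => A.card + 1 = r ∧ ¬ M.IsBase ((insert f A : Finset α) : Set α)) :=
    SS_or (fun A _ => by tauto) (fun A _ => by tauto)
  have K := keyK X' z hz' r (fun A => M.IsBase (A : Set α))
    (fun A => M.IsBase ((insert e A : Finset α) : Set α))
    (fun A => M.IsBase ((insert f A : Finset α) : Set α))
    (fun A => M.IsBase ((insert e (insert f A) : Finset α) : Set α))
    (fun V hV _ hb x hx y hy h1 h2 => fact_one hM hb he (hXm V hV).1 hx hy h1 h2)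
    (fun V hV _ hb x hx y hy h1 h2 => fact_one hM hb hf (hXm V hV).2.1 hx hy h1 h2)
    (fun Y hY hc h1 h2 y _ => fact_two hM hB (hXm Y hY).2.2 hc he hf (hXm Y hY).1
      (hXm Y hY).2.1 h1 h2 y)
  generalize SS X' z (fun A => A.card + 3 ≤ r) = E3 at *
  generalize SS X' z (fun A => A.card + 2 ≤ r) = E2 at *
  generalize SS X' z (fun A => A.card + 1 ≤ r) = E1 at *
  generalize SS X' z (fun A => A.card + 1 = r) = e1 at *
  generalize SS X' z (fun A => A.card + 2 = r) = e2 at *
  generalize SS X' z (fun A => A.card + 2 = r ∧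
    M.IsBase ((insert e (insert f A) : Finset α) : Set α)) = bef at *
  generalize SS X' z (fun A => A.card + 2 = r ∧
    ¬ M.IsBase ((insert e (insert f A) : Finset α) : Set α)) = nef at *
  generalize SS X' z (fun A => A.card + 1 = r ∧
    M.IsBase ((insert e A : Finset α) : Set α)) = be at *
  generalize SS X' z (fun A => A.card + 1 = r ∧
    ¬ M.IsBase ((insert e A : Finset α) : Set α)) = ne at *
  generalize SS X' z (fun A => A.card + 1 = r ∧
    M.IsBase ((insert f A : Finset α) : Set α)) = bf at *
  generalize SS X' z (fun A => A.card + 1 = r ∧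
    ¬ M.IsBase ((insert f A : Finset α) : Set α)) = nf at *
  generalize SS X' z (fun A => A.card = r ∧ M.IsBase (A : Set α)) = b0 at *
  have u3 : E3 = E2 - bef - nef := by linarith
  have u1 : ne = e1 - be := by linarith
  have u2 : nf = e1 - bf := by linarith
  subst t1
  rw [u3] at K ⊢
  rw [u1, u2] at K
  nlinarith [K, hR']

end Pool.Agent.Helper214.PavMain
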