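import Mathlib
import Pool.Agent.Helper214.PavMain

namespace Pool.Agent.Helper214.PavMain

open Finset Pool.Agent.Helper214.PavCore Pool.Agent.Helper214.PavMat Filter Topology

variable {α : Type*} [DecidableEq α] [Fintype α]

omit [Fintype α] in
theorem SS_compl (X : Finset α) (z : α → ℝ) (hz : ∀ x, 0 < z x) (q : Finset α → Prop) :
    SS X z (fun A => q (X \ A)) = (∏ x ∈ X, z x) * SS X (fun x => (z x)⁻¹) q := by
  classical
  unfold SS
  rw [Finset.mul_sum]
  refine Finset.sum_nbij' (fun A => X \ A) (fun A => X \ A) ?_ ?_ ?_ ?_ ?_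
  · intro A _
    exact Finset.mem_powerset.2 Finset.sdiff_subset
  · intro A _
    exact Finset.mem_powerset.2 Finset.sdiff_subset
  · intro A hA
    rw [Finset.mem_powerset] at hA
    exact Finset.sdiff_sdiff_eq_self hA
  · intro A hA
    rw [Finset.mem_powerset] at hA
    exact Finset.sdiff_sdiff_eq_self hA
  · intro A hA
    rw [Finset.mem_powerset] at hA
    have h1 : (∏ x ∈ X \ A, z x) * ∏ x ∈ A, z x = ∏ x ∈ X, z x := Finset.prod_sdiff hA
    have h2 : (∏ x ∈ X \ A, z x) * ∏ x ∈ X \ A, (z x)⁻¹ = 1 := by
      rw [← Finset.prod_mul_distrib]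
      exact Finset.prod_eq_one fun x _ => mul_inv_cancel₀ (hz x).ne'
    by_cases hq : q (X \ A)
    · rw [if_pos hq, if_pos hq, ← h1]
      calc ∏ x ∈ A, z x = (∏ x ∈ A, z x) * ((∏ x ∈ X \ A, z x) * ∏ x ∈ X \ A, (z x)⁻¹) := by
            rw [h2, mul_one]
        _ = _ := by ring
    · rw [if_neg hq, if_neg hq, mul_zero]

theorem negCorr_dual {P P' : Finset α → Prop} {E : Finset α} (hP : ∀ A, P A → A ⊆ E)
    (hPE' : ∀ A, P' A → A ⊆ E) (h : ∀ A ⊆ E, (P A ↔ P' (E \ A))) (hP' : NegCorr P') : NegCorr P := by
  classical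
  rw [negCorr_iff] at hP' ⊢
  intro z hz e f hef
  have hz' : ∀ x, 0 ≤ z x := fun x => (hz x).le
  set X := ((univ.erase e).erase f : Finset α) with hX
  by_cases he : e ∈ E
  swap
  · rw [SS_zero (p := fun A : Finset α => P (insert e (insert f A))), zero_mul]
    · exact mul_nonneg (SS_nonneg hz' _) (SS_nonneg hz' _)
    · intro A _ hA
      exact he (hP _ hA (Finset.mem_insert_self _ _))
  by_cases hf : f ∈ E
  swap
  · rw [SS_zero (p := fun A : Finset α => P (insert e (insert f A))), zero_mul]
    · exact mul_nonneg (SS_nonneg hz' _) (SS_nonneg hz' _)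
    · intro A _ hA
      exact hf (hP _ hA (Finset.mem_insert_of_mem (Finset.mem_insert_self _ _)))
  set X' := X.filter (fun x => x ∈ E) with hX'
  have hXX : X' ⊆ X := Finset.filter_subset _ _
  have memX' : ∀ x, x ∈ X' ↔ x ∈ E ∧ x ≠ e ∧ x ≠ f := by
    intro x
    rw [hX', Finset.mem_filter, hX]
    simp only [Finset.mem_erase, Finset.mem_univ, and_true]
    tauto
  have hX'E : X' ⊆ E := fun x hx => ((memX' x).1 hx).1
  have restr : ∀ (Q : Finset α → Prop), (∀ A, Q A → A ⊆ E) → ∀ g : Finset α → Finset α,
      (∀ A, A ⊆ g A) → ∀ w : α → ℝ, SS X w (fun A => Q (g A)) = SS X' w (fun A => Q (g A)) := by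
    intro Q hQ g hg w
    refine SS_restrict hXX fun A hA hh x hx => ?_
    exact Finset.mem_filter.2 ⟨hA hx, hQ _ hh (hg A hx)⟩
  have s1 : ∀ g : α, ∀ A : Finset α, A ⊆ insert g A := fun g A => Finset.subset_insert g A
  have s2 : ∀ A : Finset α, A ⊆ insert e (insert f A) := fun A =>
    (Finset.subset_insert f A).trans (Finset.subset_insert e _)
  -- complement identities
  have c2 : ∀ A ⊆ X', E \ (insert e (insert f A)) = X' \ A := by
    intro A hA
    ext x
    simp only [Finset.mem_sdiff, Finset.mem_insert, memX']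
    tauto
  have c0 : ∀ A ⊆ X', E \ A = insert e (insert f (X' \ A)) := by
    intro A hA
    ext x
    simp only [Finset.mem_sdiff, Finset.mem_insert, memX']
    constructor
    · rintro ⟨h1, h2⟩
      by_cases h3 : x = e
      · exact Or.inl h3
      · by_cases h4 : x = f
        · exact Or.inr (Or.inl h4)
        · exact Or.inr (Or.inr ⟨⟨h1, h3, h4⟩, h2⟩)
    · rintro (rfl | rfl | h1)
      · exact ⟨he, fun hh => ((memX' _).1 (hA hh)).2.1 rfl⟩
      · exact ⟨hf, fun hh => ((memX' _).1 (hA hh)).2.2 rfl⟩
      · exact ⟨h1.1.1, h1.2⟩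
  have ce : ∀ A ⊆ X', E \ (insert e A) = insert f (X' \ A) := by
    intro A hA
    ext x
    simp only [Finset.mem_sdiff, Finset.mem_insert, memX']
    constructor
    · rintro ⟨h1, h2⟩
      by_cases h4 : x = f
      · exact Or.inl h4
      · exact Or.inr ⟨⟨h1, fun hh => h2 (Or.inl hh), h4⟩, fun hh => h2 (Or.inr hh)⟩
    · rintro (rfl | h1)
      · refine ⟨hf, ?_⟩
        rintro (hh | hh)
        · exact hef hh.symm
        · exact ((memX' _).1 (hA hh)).2.2 rfl
      · refine ⟨h1.1.1, ?_⟩
        rintro (hh | hh)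
        · exact h1.1.2.1 hh
        · exact h1.2 hh
  have cf : ∀ A ⊆ X', E \ (insert f A) = insert e (X' \ A) := by
    intro A hA
    ext x
    simp only [Finset.mem_sdiff, Finset.mem_insert, memX']
    constructor
    · rintro ⟨h1, h2⟩
      by_cases h4 : x = e
      · exact Or.inl h4
      · exact Or.inr ⟨⟨h1, h4, fun hh => h2 (Or.inl hh)⟩, fun hh => h2 (Or.inr hh)⟩
    · rintro (rfl | h1)
      · refine ⟨he, ?_⟩
        rintro (hh | hh)
        · exact hef hh
        · exact ((memX' _).1 (hA hh)).2.1 rfl
      · refine ⟨h1.1.1, ?_⟩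
        rintro (hh | hh)
        · exact h1.1.2.2 hh
        · exact h1.2 hh
  have subE : ∀ A ⊆ X', A ⊆ E := fun A hA => hA.trans hX'E
  have subEe : ∀ A ⊆ X', insert e A ⊆ E := fun A hA => Finset.insert_subset he (subE A hA)
  have subEf : ∀ A ⊆ X', insert f A ⊆ E := fun A hA => Finset.insert_subset hf (subE A hA)
  have subEef : ∀ A ⊆ X', insert e (insert f A) ⊆ E := fun A hA =>
    Finset.insert_subset he (subEf A hA)
  set w : α → ℝ := fun x => (z x)⁻¹ with hw
  have hwpos : ∀ x, 0 < w x := fun x => inv_pos.2 (hz x)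
  set c := ∏ x ∈ X', z x with hc
  have q1 : SS X z (fun A => P (insert e (insert f A))) = c * SS X' w P' := by
    rw [restr P hP _ s2 z, ← SS_compl X' z hz P']
    exact SS_congr fun A hA => by rw [h _ (subEef A hA), c2 A hA]
  have q2 : SS X z P = c * SS X' w (fun A => P' (insert e (insert f A))) := by
    rw [restr P hP (fun A => A) (fun A => Finset.Subset.refl A) z,
      ← SS_compl X' z hz (fun A => P' (insert e (insert f A)))]
    exact SS_congr fun A hA => by rw [h _ (subE A hA), c0 A hA]
  have q3 : SS X z (fun A => P (insert e A)) = c * SS X' w (fun A => P' (insert f A)) := by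
    rw [restr P hP _ (s1 e) z, ← SS_compl X' z hz (fun A => P' (insert f A))]
    exact SS_congr fun A hA => by rw [h _ (subEe A hA), ce A hA]
  have q4 : SS X z (fun A => P (insert f A)) = c * SS X' w (fun A => P' (insert e A)) := by
    rw [restr P hP _ (s1 f) z, ← SS_compl X' z hz (fun A => P' (insert e A))]
    exact SS_congr fun A hA => by rw [h _ (subEf A hA), cf A hA]
  rw [q1, q2, q3, q4]
  have k := hP' w hwpos e f hef
  rw [restr P' hPE' _ s2 w, restr P' hPE' (fun A => A) (fun A => Finset.Subset.refl A) w,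
    restr P' hPE' _ (s1 e) w, restr P' hPE' _ (s1 f) w] at k
  have hcc : 0 ≤ c * c := mul_self_nonneg c
  have k2 := mul_le_mul_of_nonneg_left k hcc
  calc _ = c * c * (SS X' w (fun A => P' (insert e (insert f A))) *
        SS X' w fun A => P' A) := by ring
    _ ≤ _ := k2
    _ = _ := by ring

theorem spanning_of_dual (M : Matroid α)
    (h : NegCorr fun A : Finset α => M✶.Indep (A : Set α)) :
    NegCorr fun A : Finset α => M.Spanning (A : Set α) := by
  classical
  have hE : (((Set.toFinite M.E).toFinset : Finset α) : Set α) = M.E := Set.Finite.coe_toFinset _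
  refine negCorr_dual (E := (Set.toFinite M.E).toFinset) ?_ ?_ ?_ h
  · intro A hA
    rw [← Finset.coe_subset, hE]
    exact hA.subset_ground
  · intro A hA
    rw [← Finset.coe_subset, hE]
    exact hA.subset_ground
  · intro A hA
    rw [← Finset.coe_subset, hE] at hA
    rw [Finset.coe_sdiff, hE]
    exact M.spanning_iff_compl_coindep hA

theorem indep_of_dual (M : Matroid α)
    (h : NegCorr fun A : Finset α => M✶.Spanning (A : Set α)) :
    NegCorr fun A : Finset α => M.Indep (A : Set α) := by
  classical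
  have hE : (((Set.toFinite M.E).toFinset : Finset α) : Set α) = M.E := Set.Finite.coe_toFinset _
  refine negCorr_dual (E := (Set.toFinite M.E).toFinset) ?_ ?_ ?_ h
  · intro A hA
    rw [← Finset.coe_subset, hE]
    exact hA.subset_ground
  · intro A hA
    rw [← Finset.coe_subset, hE]
    exact hA.subset_ground
  · intro A hA
    rw [← Finset.coe_subset, hE] at hA
    rw [Finset.coe_sdiff, hE]
    have h1 := M✶.spanning_iff_compl_coindep (S := M.E \ (A : Set α)) Set.sdiff_subset
    rw [h1]
    change M.Indep (A : Set α) ↔ M✶✶.Indep (M.E \ (M.E \ (A : Set α)))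
    rw [Matroid.dual_dual, Set.sdiff_sdiff_cancel_left hA]

theorem base_dual (M : Matroid α)
    (h : NegCorr fun A : Finset α => M.IsBase (A : Set α)) :
    NegCorr fun A : Finset α => M✶.IsBase (A : Set α) := by
  classical
  have hE : (((Set.toFinite M.E).toFinset : Finset α) : Set α) = M.E := Set.Finite.coe_toFinset _
  refine negCorr_dual (E := (Set.toFinite M.E).toFinset) ?_ ?_ ?_ h
  · intro A hA
    rw [← Finset.coe_subset, hE]
    exact hA.subset_ground
  · intro A hA
    rw [← Finset.coe_subset, hE]
    exact hA.subset_ground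
  · intro A hA
    rw [← Finset.coe_subset, hE] at hA
    rw [Finset.coe_sdiff, hE]
    exact M.dual_isBase_iff hA

/-- sparse paving Rayleigh matroids are spanning-correlated -/
theorem paving_spanning {M : Matroid α} (hM : Paving M✶)
    (hR : NegCorr fun A : Finset α => M.IsBase (A : Set α)) :
    NegCorr fun A : Finset α => M.Spanning (A : Set α) :=
  spanning_of_dual M (paving_indep hM (base_dual M hR))

omit [Fintype α] [DecidableEq α] in
theorem SS_tendsto (X : Finset α) (z : α → ℝ) (p : Finset α → Prop) (k : ℕ)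
    (hp : ∀ A ⊆ X, p A → A.card ≤ k) :
    Tendsto (fun t : ℝ => SS X (fun x => t * z x) p / t ^ k) atTop
      (𝓝 (SS X z (fun A => p A ∧ A.card = k))) := by
  classical
  unfold SS
  simp_rw [Finset.sum_div]
  refine tendsto_finsetSum _ fun A hA => ?_
  rw [Finset.mem_powerset] at hA
  by_cases hpA : p A
  · have hle := hp A hA hpA
    by_cases hk : A.card = k
    · rw [if_pos ⟨hpA, hk⟩]
      refine tendsto_const_nhds.congr' ?_
      filter_upwards [eventually_gt_atTop (0 : ℝ)] with t ht
      rw [if_pos hpA, Finset.prod_mul_distrib, Finset.prod_const, hk]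
      have : t ^ k ≠ 0 := pow_ne_zero _ ht.ne'
      field_simp
    · rw [if_neg fun hh => hk hh.2]
      have hlt : A.card < k := lt_of_le_of_ne hle hk
      obtain ⟨d, hd⟩ := Nat.exists_eq_add_of_lt hlt
      have h1 : Tendsto (fun t : ℝ => (∏ x ∈ A, z x) * (t⁻¹) ^ (d + 1)) atTop (𝓝 0) := by
        have h2 : Tendsto (fun t : ℝ => (t⁻¹) ^ (d + 1)) atTop (𝓝 0) := by
          have := (tendsto_inv_atTop_zero (𝕜 := ℝ)).pow (d + 1)
          simpa using this
        simpa using h2.const_mul (∏ x ∈ A, z x)
      refine h1.congr' ?_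
      filter_upwards [eventually_gt_atTop (0 : ℝ)] with t ht
      rw [if_pos hpA, Finset.prod_mul_distrib, Finset.prod_const, hd, inv_pow]
      have h3 : t ^ (d + 1) ≠ 0 := pow_ne_zero _ ht.ne'
      have h4 : t ^ A.card ≠ 0 := pow_ne_zero _ ht.ne'
      rw [show A.card + d + 1 = A.card + (d + 1) by ring, pow_add t A.card (d + 1)]
      field_simp
  · rw [if_neg fun hh => hpA hh.1]
    refine tendsto_const_nhds.congr fun t => ?_
    rw [if_neg hpA, zero_div]

theorem base_of_indep (M : Matroid α)
    (h : NegCorr fun A : Finset α => M.Indep (A : Set α)) :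
    NegCorr fun A : Finset α => M.IsBase (A : Set α) := by
  classical
  rw [negCorr_iff] at h ⊢
  intro z hz e f hef
  have hz' : ∀ x, 0 ≤ z x := fun x => (hz x).le
  obtain ⟨B, hB⟩ := exists_base M
  set X := ((univ.erase e).erase f : Finset α) with hX
  have hXm : ∀ A ⊆ X, e ∉ A ∧ f ∉ A := by
    intro A hA
    exact ⟨fun hh => by simpa [hX] using hA hh, fun hh => by simpa [hX] using hA hh⟩
  have cef : ∀ A ⊆ X, (insert e (insert f A)).card = A.card + 2 := by
    intro A hA
    obtain ⟨h1, h2⟩ := hXm A hA
    rw [Finset.card_insert_of_notMem, Finset.card_insert_of_notMem h2]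
    rw [Finset.mem_insert]; rintro (h | h)
    · exact hef h
    · exact h1 h
  have ce : ∀ A ⊆ X, (insert e A).card = A.card + 1 := fun A hA =>
    Finset.card_insert_of_notMem (hXm A hA).1
  have cf : ∀ A ⊆ X, (insert f A).card = A.card + 1 := fun A hA =>
    Finset.card_insert_of_notMem (hXm A hA).2
  by_cases hr : B.card < 2
  · rw [SS_zero (p := fun A : Finset α => M.IsBase ((insert e (insert f A) : Finset α) : Set α)),
      zero_mul]
    · exact mul_nonneg (SS_nonneg hz' _) (SS_nonneg hz' _)
    · intro A hA hb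
      have h1 := base_card hb hB
      rw [cef A hA] at h1
      omega
  rw [not_lt] at hr
  obtain ⟨k, hk⟩ := Nat.exists_eq_add_of_le hr
  have T1 := SS_tendsto X z (fun A => M.Indep ((insert e (insert f A) : Finset α) : Set α)) k
    (fun A hA hh => by
      have h1 := indep_card_le hh hB
      rw [cef A hA] at h1
      omega)
  have T2 := SS_tendsto X z (fun A => M.Indep (A : Set α)) (k + 2)
    (fun A hA hh => by
      have h1 := indep_card_le hh hB
      omega)
  have T3 := SS_tendsto X z (fun A => M.Indep ((insert e A : Finset α) : Set α)) (k + 1)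
    (fun A hA hh => by
      have h1 := indep_card_le hh hB
      rw [ce A hA] at h1
      omega)
  have T4 := SS_tendsto X z (fun A => M.Indep ((insert f A : Finset α) : Set α)) (k + 1)
    (fun A hA hh => by
      have h1 := indep_card_le hh hB
      rw [cf A hA] at h1
      omega)
  have L := T1.mul T2
  have R := T3.mul T4
  have key := le_of_tendsto_of_tendsto L R (by
    filter_upwards [eventually_gt_atTop (0 : ℝ)] with t ht
    have h1 := h (fun x => t * z x) (fun x => mul_pos ht (hz x)) e f hef
    rw [div_mul_div_comm, div_mul_div_comm, ← pow_add, ← pow_add,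
      show k + 1 + (k + 1) = k + (k + 2) by ring]
    exact div_le_div_of_nonneg_right h1 (pow_nonneg ht.le _))
  have b1 : SS X z (fun A => M.Indep ((insert e (insert f A) : Finset α) : Set α) ∧
      A.card = k) = SS X z (fun A => M.IsBase ((insert e (insert f A) : Finset α) : Set α)) := by
    refine SS_congr fun A hA => ⟨fun hh => ?_, fun hh => ⟨hh.indep, ?_⟩⟩
    · exact indep_base hh.1 hB (by rw [cef A hA]; omega)
    · have h1 := base_card hh hB
      rw [cef A hA] at h1
      omega
  have b2 : SS X z (fun A => M.Indep (A : Set α) ∧ A.card = k + 2) =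
      SS X z (fun A => M.IsBase (A : Set α)) := by
    refine SS_congr fun A hA => ⟨fun hh => ?_, fun hh => ⟨hh.indep, ?_⟩⟩
    · exact indep_base hh.1 hB (by omega)
    · have h1 := base_card hh hB
      omega
  have b3 : SS X z (fun A => M.Indep ((insert e A : Finset α) : Set α) ∧ A.card = k + 1) =
      SS X z (fun A => M.IsBase ((insert e A : Finset α) : Set α)) := by
    refine SS_congr fun A hA => ⟨fun hh => ?_, fun hh => ⟨hh.indep, ?_⟩⟩
    · exact indep_base hh.1 hB (by rw [ce A hA]; omega)
    · have h1 := base_card hh hB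
      rw [ce A hA] at h1
      omega
  have b4 : SS X z (fun A => M.Indep ((insert f A : Finset α) : Set α) ∧ A.card = k + 1) =
      SS X z (fun A => M.IsBase ((insert f A : Finset α) : Set α)) := by
    refine SS_congr fun A hA => ⟨fun hh => ?_, fun hh => ⟨hh.indep, ?_⟩⟩
    · exact indep_base hh.1 hB (by rw [cf A hA]; omega)
    · have h1 := base_card hh hB
      rw [cf A hA] at h1
      omega
  rw [b1, b2, b3, b4] at key
  exact key

theorem base_of_spanning (M : Matroid α)
    (h : NegCorr fun A : Finset α => M.Spanning (A : Set α)) :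
    NegCorr fun A : Finset α => M.IsBase (A : Set α) := by
  have h1 : NegCorr fun A : Finset α => M✶✶.Spanning (A : Set α) := by
    rw [Matroid.dual_dual]; exact h
  have h2 := base_dual M✶ (base_of_indep M✶ (indep_of_dual M✶ h1))
  rw [Matroid.dual_dual] at h2
  exact h2

end Pool.Agent.Helper214.PavMain
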