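import Mathlib
import Pool.Agent.Helper214.PavDual

namespace Pool.Agent.Helper214.Hpp

open Finset Pool.Agent.Helper214.PavCore Pool.Agent.Helper214.PavMat
  Pool.Agent.Helper214.PavMain Filter Topology

variable {α : Type*} [DecidableEq α] [Fintype α]

theorem sum_splitC (e f : α) (h : e ≠ f) (F : Finset α → ℂ) :
    ∑ A : Finset α, F A = ∑ A ∈ ((univ.erase e).erase f).powerset,
      (F A + F (insert f A) + F (insert e A) + F (insert e (insert f A))) := by
  have h1 : (univ : Finset α) = insert e (univ.erase e) := by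
    rw [Finset.insert_erase (Finset.mem_univ e)]
  have h2 : (univ.erase e : Finset α) = insert f ((univ.erase e).erase f) := by
    rw [Finset.insert_erase (Finset.mem_erase.2 ⟨h.symm, Finset.mem_univ f⟩)]
  have h3 : e ∉ (univ.erase e : Finset α) := Finset.notMem_erase e _
  have h4 : f ∉ ((univ.erase e).erase f : Finset α) := Finset.notMem_erase f _
  have h5 : ∑ A : Finset α, F A = ∑ A ∈ (univ : Finset α).powerset, F A := by
    rw [Finset.powerset_univ]
  rw [h5]
  conv_lhs => rw [h1, Finset.sum_powerset_insert h3, h2, Finset.sum_powerset_insert h4,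
    Finset.sum_powerset_insert h4]
  simp only [Finset.sum_add_distrib]
  ring

open Classical in
/-- weighted sum of the subsets of `X` with a property, complex weights -/
noncomputable def SC (X : Finset α) (z : α → ℂ) (p : Finset α → Prop) : ℂ :=
  ∑ W ∈ X.powerset, if p W then ∏ x ∈ W, z x else 0

omit [DecidableEq α] [Fintype α] in
theorem SC_ofReal (X : Finset α) (z : α → ℝ) (p : Finset α → Prop) :
    SC X (fun x => (z x : ℂ)) p = (SS X z p : ℂ) := by
  classical
  unfold SC SS
  push_cast
  refine Finset.sum_congr rfl fun A _ => ?_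
  split_ifs <;> simp

open Classical in
theorem polyC_split (P : Finset α → Prop) (z : α → ℂ) (e f : α) (h : e ≠ f) :
    (∑ A : Finset α, if P A then ∏ x ∈ A, z x else 0) =
        SC ((univ.erase e).erase f) z P +
        z f * SC ((univ.erase e).erase f) z (fun A => P (insert f A)) +
        z e * SC ((univ.erase e).erase f) z (fun A => P (insert e A)) +
        z e * z f * SC ((univ.erase e).erase f) z (fun A => P (insert e (insert f A))) := by
  have hmem : ∀ A ∈ ((univ.erase e).erase f : Finset α).powerset, e ∉ A ∧ f ∉ A ∧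
      (∏ x ∈ insert f A, z x) = z f * ∏ x ∈ A, z x ∧
      (∏ x ∈ insert e A, z x) = z e * ∏ x ∈ A, z x ∧
      (∏ x ∈ insert e (insert f A), z x) = z e * (z f * ∏ x ∈ A, z x) := by
    intro A hA
    rw [Finset.mem_powerset] at hA
    have he : e ∉ A := fun hh => by simpa using hA hh
    have hf : f ∉ A := fun hh => by simpa using hA hh
    have he' : e ∉ insert f A := by
      rw [Finset.mem_insert]; rintro (hh | hh)
      · exact h hh
      · exact he hh
    refine ⟨he, hf, Finset.prod_insert hf, Finset.prod_insert he, ?_⟩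
    rw [Finset.prod_insert he', Finset.prod_insert hf]
  rw [sum_splitC e f h]
  unfold SC
  simp only [Finset.mul_sum, ← Finset.sum_add_distrib]
  refine Finset.sum_congr rfl fun A hA => ?_
  obtain ⟨he, hf, p1, p2, p3⟩ := hmem A hA
  simp only [p1, p2, p3]
  split_ifs <;> ring

omit [DecidableEq α] [Fintype α] in
theorem SC_congr_val {X : Finset α} {z w : α → ℂ} {p : Finset α → Prop}
    (h : ∀ x ∈ X, z x = w x) : SC X z p = SC X w p := by
  classical
  unfold SC
  refine Finset.sum_congr rfl fun A hA => ?_
  rw [Finset.mem_powerset] at hA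
  split_ifs
  · exact Finset.prod_congr rfl fun x hx => h x (hA hx)
  · rfl

omit [DecidableEq α] [Fintype α] in
theorem SC_continuous (X : Finset α) (z : α → ℝ) (p : Finset α → Prop) :
    Continuous fun t : ℝ => SC X (fun x => (z x : ℂ) + (t : ℂ) * Complex.I) p := by
  classical
  unfold SC
  refine continuous_finset_sum _ fun A _ => ?_
  split_ifs
  · refine continuous_finset_prod _ fun x _ => ?_
    fun_prop
  · exact continuous_const

open Classical in
/-- nonvanishing on the upper half-plane, for a homogeneous family -/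
theorem upper_of_right {P : Finset α → Prop} {r : ℕ} (hr : ∀ A, P A → A.card = r)
    (h : ∀ x : α → ℂ, (∀ a, 0 < (x a).re) →
      (∑ A : Finset α, if P A then ∏ a ∈ A, x a else 0) ≠ 0)
    (x : α → ℂ) (hx : ∀ a, 0 < (x a).im) :
    (∑ A : Finset α, if P A then ∏ a ∈ A, x a else 0) ≠ 0 := by
  have h1 := h (fun a => -Complex.I * x a) (fun a => by
    have := hx a
    simpa using this)
  have e : (∑ A : Finset α, if P A then ∏ a ∈ A, (-Complex.I * x a) else 0) =
      (-Complex.I) ^ r * ∑ A : Finset α, if P A then ∏ a ∈ A, x a else 0 := by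
    rw [Finset.mul_sum]
    refine Finset.sum_congr rfl fun A _ => ?_
    split_ifs with hA
    · rw [Finset.prod_mul_distrib, Finset.prod_const, hr A hA]
    · rw [mul_zero]
  rw [e] at h1
  exact fun h2 => h1 (by rw [h2, mul_zero])

open Classical in
theorem negCorr_of_hpp {P : Finset α → Prop} {r : ℕ} (hr : ∀ A, P A → A.card = r)
    (h : ∀ x : α → ℂ, (∀ a, 0 < (x a).re) →
      (∑ A : Finset α, if P A then ∏ a ∈ A, x a else 0) ≠ 0) : NegCorr P := by
  rw [negCorr_iff]
  intro z hz e f hef
  have hz' : ∀ x, 0 ≤ z x := fun x => (hz x).le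
  set X := ((univ.erase e).erase f : Finset α) with hX
  set a := SS X z (fun A => P (insert e (insert f A))) with ha
  set b := SS X z (fun A => P (insert e A)) with hb
  set c := SS X z (fun A => P (insert f A)) with hc
  set d := SS X z P with hd
  have ha0 : 0 ≤ a := SS_nonneg hz' _
  have hb0 : 0 ≤ b := SS_nonneg hz' _
  have hc0 : 0 ≤ c := SS_nonneg hz' _
  by_contra hcon
  rw [not_le] at hcon
  have hapos : 0 < a := by
    rcases ha0.lt_or_eq with h1 | h1
    · exact h1
    · rw [← h1, zero_mul] at hcon
      exact absurd hcon (not_lt.2 (mul_nonneg hb0 hc0))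
  set k := Real.sqrt (a * d - b * c) with hk
  have hkpos : 0 < k := Real.sqrt_pos.2 (by linarith)
  have hk2 : k * k = a * d - b * c := Real.mul_self_sqrt (by linarith)
  -- the value of `y = x_f`
  set y : ℂ := (-(b : ℂ) + k * Complex.I) / a with hy
  have hyim : 0 < y.im := by
    have : y.im = k / a := by
      rw [hy]
      simp [Complex.div_ofReal_im]
    rw [this]
    exact div_pos hkpos hapos
  -- perturbed coefficients
  let w : ℝ → α → ℂ := fun t x => (z x : ℂ) + (t : ℂ) * Complex.I
  let ac : ℝ → ℂ := fun t => SC X (w t) (fun A => P (insert e (insert f A)))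
  let bc : ℝ → ℂ := fun t => SC X (w t) (fun A => P (insert e A))
  let cc : ℝ → ℂ := fun t => SC X (w t) (fun A => P (insert f A))
  let dc : ℝ → ℂ := fun t => SC X (w t) P
  have cac : Continuous ac := SC_continuous X z _
  have cbc : Continuous bc := SC_continuous X z _
  have ccc : Continuous cc := SC_continuous X z _
  have cdc : Continuous dc := SC_continuous X z _
  have w0 : w 0 = fun x => (z x : ℂ) := by funext x; simp [w]
  have ac0 : ac 0 = a := by
    change SC X (w 0) _ = _
    rw [w0, SC_ofReal]
  have bc0 : bc 0 = b := by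
    change SC X (w 0) _ = _
    rw [w0, SC_ofReal]
  have cc0 : cc 0 = c := by
    change SC X (w 0) _ = _
    rw [w0, SC_ofReal]
  have dc0 : dc 0 = d := by
    change SC X (w 0) _ = _
    rw [w0, SC_ofReal]
  have hane : (a : ℂ) ≠ 0 := by exact_mod_cast hapos.ne'
  have hden0 : ac 0 * y + bc 0 = k * Complex.I := by
    rw [ac0, bc0, hy]
    field_simp
    ring
  have hkne : (k : ℂ) * Complex.I ≠ 0 :=
    mul_ne_zero (by exact_mod_cast hkpos.ne') Complex.I_ne_zero
  let xt : ℝ → ℂ := fun t => -(cc t * y + dc t) / (ac t * y + bc t)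
  have hxt0 : xt 0 = (-(c : ℂ) + k * Complex.I) / a := by
    change -(cc 0 * y + dc 0) / (ac 0 * y + bc 0) = _
    rw [hden0, cc0, dc0, div_eq_div_iff hkne hane, hy]
    have h2 : (k : ℂ) * k = a * d - b * c := by exact_mod_cast hk2
    field_simp
    have h3 : Complex.I ^ 2 = -1 := Complex.I_sq
    linear_combination h2 - (k : ℂ) ^ 2 * h3
  have hxt0im : 0 < (xt 0).im := by
    rw [hxt0]
    have : ((-(c : ℂ) + k * Complex.I) / a).im = k / a := by simp [Complex.div_ofReal_im]
    rw [this]
    exact div_pos hkpos hapos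
  have hcont : ContinuousAt xt 0 := by
    refine ContinuousAt.div ?_ ?_ ?_
    · exact ((ccc.mul continuous_const).add cdc).neg.continuousAt
    · exact ((cac.mul continuous_const).add cbc).continuousAt
    · rw [hden0]; exact hkne
  have hden : ∀ᶠ t in 𝓝 (0 : ℝ), ac t * y + bc t ≠ 0 := by
    have hc1 : ContinuousAt (fun t => ac t * y + bc t) 0 :=
      ((cac.mul continuous_const).add cbc).continuousAt
    exact hc1.eventually_ne (by rw [hden0]; exact hkne)
  have him : ∀ᶠ t in 𝓝 (0 : ℝ), 0 < (xt t).im := by
    have hc1 : ContinuousAt (fun t => (xt t).im) 0 := Complex.continuous_im.continuousAt.comp hcont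
    exact hc1.eventually (lt_mem_nhds hxt0im)
  have hev : ∀ᶠ t in 𝓝[>] (0 : ℝ), (ac t * y + bc t ≠ 0 ∧ 0 < (xt t).im) ∧ 0 < t :=
    ((hden.and him).filter_mono nhdsWithin_le_nhds).and self_mem_nhdsWithin
  obtain ⟨t, ⟨ht1, ht2⟩, ht3⟩ := hev.exists
  -- the point
  let v : α → ℂ := fun x => if x = e then xt t else if x = f then y else w t x
  have hv : ∀ x, 0 < (v x).im := by
    intro x
    by_cases h1 : x = e
    · simp only [v, h1, if_true]; exact ht2
    · by_cases h2 : x = f
      · simp only [v, h2, hef.symm, if_false, if_true]; exact hyim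
      · simp only [v, h1, h2, if_false, w]
        simpa using ht3
  have hne := upper_of_right hr h v hv
  apply hne
  rw [polyC_split P v e f hef]
  have hve : v e = xt t := by simp [v]
  have hvf : v f = y := by simp [v, hef.symm]
  have hvX : ∀ x ∈ X, v x = w t x := by
    intro x hx
    have hx' : x ≠ e ∧ x ≠ f := by
      rw [hX, Finset.mem_erase, Finset.mem_erase] at hx
      exact ⟨hx.2.1, hx.1⟩
    simp [v, hx'.1, hx'.2]
  rw [hve, hvf, SC_congr_val hvX, SC_congr_val hvX, SC_congr_val hvX, SC_congr_val hvX]
  change dc t + y * cc t + xt t * bc t + xt t * y * ac t = 0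
  have hx : xt t * (ac t * y + bc t) = -(cc t * y + dc t) := by
    change -(cc t * y + dc t) / (ac t * y + bc t) * (ac t * y + bc t) = _
    rw [div_mul_cancel₀ _ ht1]
  linear_combination hx

end Pool.Agent.Helper214.Hpp
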